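import Pool.Agent.E8helper77.Mk.ZJ
import Pool.Agent.TH94.MK.Main
import Pool.Agent.Y449.MS.All

/-!
Quotients of domains by affine groups whose linear parts tend to a bounded group, up to
conjugation: completeness.
-/

set_option autoImplicit false
set_option linter.unusedSectionVars false

open Set Filter Topology Metric
open scoped commutatorElement
open Pool.Agent.W689.Mk Pool.Agent.TH94.MK

namespace Pool.Agent.E8helper77.Mk

section hat
variable {E : Type} [NormedAddCommGroup E] [NormedSpace ℝ E]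

/-- affine map as a linear map -/
noncomputable def mkT (T : E →L[ℝ] E) (b : E) : (E × ℝ) →L[ℝ] (E × ℝ) :=
  ((T.comp (ContinuousLinearMap.fst ℝ E ℝ)) +
    (ContinuousLinearMap.snd ℝ E ℝ).smulRight b).prod (ContinuousLinearMap.snd ℝ E ℝ)

theorem mkT_apply (T : E →L[ℝ] E) (b : E) (p : E × ℝ) : mkT T b p = (T p.1 + p.2 • b, p.2) := rfl

/-- block diagonal map -/
noncomputable def mkD (T : E →L[ℝ] E) (s : ℝ) : (E × ℝ) →L[ℝ] (E × ℝ) :=
  (T.comp (ContinuousLinearMap.fst ℝ E ℝ)).prod (s • ContinuousLinearMap.snd ℝ E ℝ)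

theorem mkD_apply (T : E →L[ℝ] E) (s : ℝ) (p : E × ℝ) : mkD T s p = (T p.1, s * p.2) := rfl

theorem mkT_sub_norm (T T' : E →L[ℝ] E) (b b' : E) :
    ‖mkT T b - mkT T' b'‖ ≤ ‖T - T'‖ + ‖b - b'‖ := by
  refine ContinuousLinearMap.opNorm_le_bound _ (by positivity) fun p => ?_
  have h1 : (mkT T b - mkT T' b') p = ((T - T') p.1 + p.2 • (b - b'), 0) := by
    show mkT T b p - mkT T' b' p = _
    rw [mkT_apply, mkT_apply]
    ext
    · show T p.1 + p.2 • b - (T' p.1 + p.2 • b') = (T p.1 - T' p.1) + p.2 • (b - b')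
      rw [smul_sub]; abel
    · show p.2 - p.2 = 0
      rw [sub_self]
  rw [h1, Prod.norm_def]
  simp only [norm_zero]
  rw [max_eq_left (norm_nonneg _)]
  calc ‖(T - T') p.1 + p.2 • (b - b')‖ ≤ ‖(T - T') p.1‖ + ‖p.2 • (b - b')‖ := norm_add_le _ _
    _ ≤ ‖T - T'‖ * ‖p.1‖ + ‖p.2‖ * ‖b - b'‖ := by
        rw [norm_smul]; gcongr; exact (T - T').le_opNorm _
    _ ≤ ‖T - T'‖ * ‖p‖ + ‖p‖ * ‖b - b'‖ := by
        gcongr
        · exact norm_fst_le p
        · exact norm_snd_le p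
    _ = (‖T - T'‖ + ‖b - b'‖) * ‖p‖ := by ring

theorem mkT_one : mkT (1 : E →L[ℝ] E) 0 = 1 := by
  refine ContinuousLinearMap.ext fun p => ?_
  rw [mkT_apply]
  simp

theorem mkT_tendsto {α : Type} {l : Filter α} {T : α → (E →L[ℝ] E)} {b : α → E}
    {T0 : E →L[ℝ] E} {b0 : E} (hT : Tendsto T l (𝓝 T0)) (hb : Tendsto b l (𝓝 b0)) :
    Tendsto (fun a => mkT (T a) (b a)) l (𝓝 (mkT T0 b0)) := by
  rw [tendsto_iff_norm_sub_tendsto_zero] at hT hb ⊢
  refine squeeze_zero (fun a => norm_nonneg _) (fun a => mkT_sub_norm _ _ _ _) ?_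
  simpa using hT.add hb

end hat

section geo
variable {E Γ X : Type} [NormedAddCommGroup E] [NormedSpace ℝ E] [FiniteDimensional ℝ E]
  [Group Γ] {hol : Γ →* (E ≃ᵃ[ℝ] E)}

/-- linear holonomy as a continuous linear map -/
noncomputable def Lc (hol : Γ →* (E ≃ᵃ[ℝ] E)) (γ : Γ) : E →L[ℝ] E :=
  LinearMap.toContinuousLinearMap ((hol γ).linear : E →ₗ[ℝ] E)

theorem Lc_apply (γ : Γ) (v : E) : Lc hol γ v = (hol γ).linear v := rfl

theorem Lc_one : Lc hol 1 = 1 := by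
  ext v
  rw [Lc_apply, map_one]
  rfl

theorem Lc_mul (γ δ : Γ) : Lc hol (γ * δ) = Lc hol γ * Lc hol δ := by
  ext v
  rw [Lc_apply, map_mul]
  rfl

theorem hol_eq (γ : Γ) (p : E) : hol γ p = Lc hol γ p + hol γ 0 := by
  have := hol_add (hol := hol) γ 0 p
  rw [zero_add] at this
  rw [this, add_comm]
  rfl

/-- holonomy as a linear map -/
noncomputable def Ph (hol : Γ →* (E ≃ᵃ[ℝ] E)) : Γ →* ((E × ℝ) →L[ℝ] (E × ℝ)) where
  toFun γ := mkT (Lc hol γ) (hol γ 0)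
  map_one' := by
    rw [Lc_one, map_one]
    exact mkT_one
  map_mul' γ δ := by
    refine ContinuousLinearMap.ext fun p => ?_
    show mkT (Lc hol (γ * δ)) (hol (γ * δ) 0) p = mkT (Lc hol γ) (hol γ 0) (mkT (Lc hol δ) (hol δ 0) p)
    rw [mkT_apply, mkT_apply, mkT_apply]
    have h1 : hol (γ * δ) 0 = Lc hol γ (hol δ 0) + hol γ 0 := by
      rw [map_mul, ← hol_eq]; rfl
    rw [h1, Lc_mul]
    simp only [mul_apply_eq_comp, map_add, map_smul, smul_add]
    rw [add_assoc]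

theorem Ph_apply (γ : Γ) (p : E × ℝ) : Ph hol γ p = (Lc hol γ p.1 + p.2 • hol γ 0, p.2) := rfl

variable [TopologicalSpace X] [T2Space X] [SecondCountableTopology X] [Nonempty X]
  [MulAction Γ X] {dev : X → E}

theorem Ph_discrete (D : AffData X Γ E dev hol) (hinj : Function.Injective dev) :
    ∃ η > 0, ∀ γ, ‖Ph hol γ - 1‖ < η → Ph hol γ = 1 := by
  obtain ⟨x⟩ := (inferInstance : Nonempty X)
  have : ProperSpace E := FiniteDimensional.proper_real E
  obtain ⟨r, hr, hrΩ⟩ := Metric.nhds_basis_closedBall.mem_iff.1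
    (D.loc.isOpenMap.isOpen_range.mem_nhds (mem_range_self x))
  have hF := range_pd D hinj (closedBall (dev x) r) (isCompact_closedBall _ _) hrΩ
  set F := {γ : Γ | ∃ c ∈ closedBall (dev x) r, hol γ c ∈ closedBall (dev x) r} with hFdef
  have hfin : ((fun γ => Ph hol γ) '' F \ {1}).Finite := (hF.image _).sdiff
  have hopen : IsOpen ((fun γ => Ph hol γ) '' F \ {1})ᶜ := hfin.isClosed.isOpen_compl
  obtain ⟨η, hη, hηb⟩ := Metric.isOpen_iff.1 hopen 1 (by
    intro h; exact h.2 rfl)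
  set R : ℝ := ‖((dev x, (1 : ℝ)) : E × ℝ)‖ with hR
  have hR0 : 0 ≤ R := norm_nonneg _
  refine ⟨min η (r / (R + 1)), lt_min hη (by positivity), fun γ hγ => ?_⟩
  have h1 : ‖Ph hol γ - 1‖ < η := hγ.trans_le (min_le_left _ _)
  have h2 : ‖Ph hol γ - 1‖ < r / (R + 1) := hγ.trans_le (min_le_right _ _)
  have h3 : (Ph hol γ - 1) (dev x, 1) = (hol γ (dev x) - dev x, 0) := by
    show Ph hol γ (dev x, 1) - (dev x, 1) = _
    rw [Ph_apply]
    ext
    · show Lc hol γ (dev x) + (1 : ℝ) • hol γ 0 - dev x = hol γ (dev x) - dev x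
      rw [one_smul, ← hol_eq]
    · show (1 : ℝ) - 1 = 0
      rw [sub_self]
  have h4 : ‖hol γ (dev x) - dev x‖ ≤ r := by
    calc ‖hol γ (dev x) - dev x‖ = ‖((hol γ (dev x) - dev x, (0 : ℝ)) : E × ℝ)‖ := by
          rw [Prod.norm_def]; simp
      _ = ‖(Ph hol γ - 1) (dev x, 1)‖ := by rw [h3]
      _ ≤ ‖Ph hol γ - 1‖ * R := (Ph hol γ - 1).le_opNorm _
      _ ≤ r / (R + 1) * (R + 1) := by
          gcongr
          linarith
      _ = r := div_mul_cancel₀ _ (by positivity)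
  have h5 : γ ∈ F := ⟨dev x, mem_closedBall_self hr.le, by
    rw [mem_closedBall, dist_eq_norm]; exact h4⟩
  by_contra hne
  exact hηb (by rw [mem_ball, dist_eq_norm]; exact h1) ⟨⟨γ, h5, rfl⟩, hne⟩

/-- The linear parts tend to a bounded group, up to conjugation by a one parameter family. -/
structure LimData (hol : Γ →* (E ≃ᵃ[ℝ] E)) (u v : ℝ → (E →L[ℝ] E)) (Dl : Γ → (E →L[ℝ] E))
    (C : ℝ) (W : ℕ → Submodule ℝ E) (m : ℕ) : Prop where
  uv : ∀ t, u t * v t = 1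
  vu : ∀ t, v t * u t = 1
  grow : ∃ B c : ℝ, ∀ t, 0 ≤ t → ‖v t‖ ≤ B * Real.exp (c * t)
  lim : ∀ γ, Tendsto (fun t => v t * Lc hol γ * u t) atTop (𝓝 (Dl γ))
  one_le : 1 ≤ C
  bdd : ∀ γ ∈ commutator Γ, ‖Dl γ‖ ≤ C
  conj : ∀ σ, ∀ γ ∈ commutator Γ, ‖Dl (σ * γ * σ⁻¹) - 1‖ ≤ C * ‖Dl γ - 1‖
  mono : Monotone W
  bot : W 0 = ⊥
  top : W m = ⊤
  ker : ∀ γ, Dl γ = 1 → (hol γ).linear ∈ Un W mono 1

theorem LimData.tend {u v : ℝ → (E →L[ℝ] E)} {Dl : Γ → (E →L[ℝ] E)}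
    {C : ℝ} {W : ℕ → Submodule ℝ E} {m : ℕ} (h : LimData hol u v Dl C W m) :
    ∃ M : ℝ, ∀ γ, Tendsto (fun t => mkD (v t) (Real.exp (M * t)) * Ph hol γ *
      mkD (u t) (Real.exp (-(M * t)))) atTop (𝓝 (mkT (Dl γ) 0)) := by
  obtain ⟨B, c, hB⟩ := h.grow
  refine ⟨c + 1, fun γ => ?_⟩
  have e1 : (fun t => mkD (v t) (Real.exp ((c + 1) * t)) * Ph hol γ *
      mkD (u t) (Real.exp (-((c + 1) * t)))) =
      fun t => mkT (v t * Lc hol γ * u t) (Real.exp (-((c + 1) * t)) • v t (hol γ 0)) := by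
    funext t
    refine ContinuousLinearMap.ext fun p => ?_
    show mkD (v t) (Real.exp ((c + 1) * t)) (Ph hol γ (mkD (u t) (Real.exp (-((c + 1) * t))) p)) = _
    rw [mkD_apply, mkD_apply, Ph_apply, mkT_apply]
    ext
    · show v t (Lc hol γ (u t p.1) + (Real.exp (-((c + 1) * t)) * p.2) • hol γ 0) =
        v t (Lc hol γ (u t p.1)) + p.2 • Real.exp (-((c + 1) * t)) • v t (hol γ 0)
      rw [map_add, map_smul, smul_smul, mul_comm p.2]
    · show Real.exp ((c + 1) * t) * (Real.exp (-((c + 1) * t)) * p.2) = p.2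
      rw [← mul_assoc, ← Real.exp_add, add_neg_cancel, Real.exp_zero, one_mul]
  rw [e1]
  refine mkT_tendsto (h.lim γ) ?_
  have h2 : Tendsto (fun t : ℝ => B * ‖hol γ 0‖ * Real.exp (-t)) atTop (𝓝 0) := by
    have h3 := Real.tendsto_exp_neg_atTop_nhds_zero.const_mul (B * ‖hol γ 0‖)
    simpa using h3
  refine squeeze_zero_norm' ?_ h2
  filter_upwards [eventually_ge_atTop 0] with t ht
  rw [norm_smul, Real.norm_of_nonneg (Real.exp_pos _).le]
  calc Real.exp (-((c + 1) * t)) * ‖v t (hol γ 0)‖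
      ≤ Real.exp (-((c + 1) * t)) * ((B * Real.exp (c * t)) * ‖hol γ 0‖) := by
        gcongr
        exact ((v t).le_opNorm _).trans (by gcongr; exact hB t ht)
    _ = B * ‖hol γ 0‖ * (Real.exp (-((c + 1) * t)) * Real.exp (c * t)) := by ring
    _ = B * ‖hol γ 0‖ * Real.exp (-t) := by
        rw [← Real.exp_add]; congr 2; ring

theorem norm_one_le' : ‖(1 : (E × ℝ) →L[ℝ] (E × ℝ))‖ ≤ 1 := ContinuousLinearMap.norm_id_le

/-- the limit homomorphism -/
noncomputable def Dh (hol : Γ →* (E ≃ᵃ[ℝ] E)) {u v : ℝ → (E →L[ℝ] E)} {Dl : Γ → (E →L[ℝ] E)}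
    {C : ℝ} {W : ℕ → Submodule ℝ E} {m : ℕ} (h : LimData hol u v Dl C W m) :
    Γ →* (E →L[ℝ] E) where
  toFun := Dl
  map_one' := by
    have h1 := h.lim 1
    have h2 : (fun t => v t * Lc hol 1 * u t) = fun _ : ℝ => (1 : E →L[ℝ] E) := by
      funext t; rw [Lc_one, mul_one, h.vu]
    rw [h2] at h1
    exact tendsto_nhds_unique h1 tendsto_const_nhds
  map_mul' γ δ := by
    have h1 := h.lim (γ * δ)
    have h2 : (fun t => v t * Lc hol (γ * δ) * u t) =
        fun t => (v t * Lc hol γ * u t) * (v t * Lc hol δ * u t) := by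
      funext t
      rw [Lc_mul]
      calc v t * (Lc hol γ * Lc hol δ) * u t = v t * Lc hol γ * 1 * Lc hol δ * u t := by
            simp only [mul_one, mul_assoc]
        _ = v t * Lc hol γ * (u t * v t) * Lc hol δ * u t := by rw [h.uv]
        _ = _ := by simp only [mul_assoc]
    rw [h2] at h1
    exact tendsto_nhds_unique h1 ((h.lim γ).mul (h.lim δ))

theorem Dh_apply {u v : ℝ → (E →L[ℝ] E)} {Dl : Γ → (E →L[ℝ] E)}
    {C : ℝ} {W : ℕ → Submodule ℝ E} {m : ℕ} (h : LimData hol u v Dl C W m) (γ : Γ) :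
    Dh hol h γ = Dl γ := rfl

/-- the block diagonal homomorphism -/
noncomputable def Dt (D : Γ →* (E →L[ℝ] E)) : Γ →* ((E × ℝ) →L[ℝ] (E × ℝ)) where
  toFun γ := mkT (D γ) 0
  map_one' := by rw [map_one]; exact mkT_one
  map_mul' γ δ := by
    refine ContinuousLinearMap.ext fun p => ?_
    show mkT (D (γ * δ)) 0 p = mkT (D γ) 0 (mkT (D δ) 0 p)
    rw [mkT_apply, mkT_apply, mkT_apply, map_mul]
    simp

theorem Dt_apply (D : Γ →* (E →L[ℝ] E)) (γ : Γ) (p : E × ℝ) : Dt D γ p = (D γ p.1, p.2) := by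
  show mkT (D γ) 0 p = _
  rw [mkT_apply]; simp

theorem Dt_norm (D : Γ →* (E →L[ℝ] E)) {C : ℝ} (hC : 1 ≤ C) {γ : Γ} (h : ‖D γ‖ ≤ C) :
    ‖Dt D γ‖ ≤ C := by
  refine ContinuousLinearMap.opNorm_le_bound _ (by linarith) fun p => ?_
  rw [Dt_apply, Prod.norm_def]
  refine max_le ?_ ?_
  · show ‖D γ p.1‖ ≤ _
    refine ((D γ).le_opNorm _).trans ?_
    gcongr
    exact norm_fst_le p
  · show ‖p.2‖ ≤ _
    have h1 := norm_snd_le p
    have h2 := norm_nonneg p
    nlinarith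

theorem Dt_sub (D : Γ →* (E →L[ℝ] E)) (γ : Γ) : ‖Dt D γ - 1‖ ≤ ‖D γ - 1‖ := by
  have h1 := mkT_sub_norm (D γ) 1 (0 : E) 0
  rw [mkT_one, sub_zero, norm_zero, add_zero] at h1
  exact h1

theorem Dt_inj (D : Γ →* (E →L[ℝ] E)) {γ δ : Γ} (h : Dt D γ * Dt D δ = Dt D δ * Dt D γ) :
    D γ * D δ = D δ * D γ := by
  refine ContinuousLinearMap.ext fun v => ?_
  have h1 := congrArg (fun T : (E × ℝ) →L[ℝ] (E × ℝ) => (T (v, 0)).1) h
  simp only [mul_apply_eq_comp, Dt_apply] at h1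
  exact h1

theorem conj_inv_closure {T : Set Γ} (hT : ∀ γ ∈ T, ∀ τ : Γ, τ * γ * τ⁻¹ ∈ T) :
    (Subgroup.closure T).Normal := by
  refine ⟨fun n hn g => ?_⟩
  induction hn using Subgroup.closure_induction with
  | mem x hx => exact Subgroup.subset_closure (hT x hx g)
  | one => rw [mul_one, mul_inv_cancel]; exact one_mem _
  | mul x y _ _ hx hy =>
    have h1 : g * (x * y) * g⁻¹ = (g * x * g⁻¹) * (g * y * g⁻¹) := by group
    rw [h1]; exact mul_mem hx hy
  | inv x _ hx =>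
    have h1 : g * x⁻¹ * g⁻¹ = (g * x * g⁻¹)⁻¹ := by group
    rw [h1]; exact inv_mem hx

theorem comm_closure {A : Type} [Monoid A] (D : Γ →* A) {T : Set Γ}
    (hT : ∀ x ∈ T, ∀ y ∈ T, D x * D y = D y * D x) :
    ⁅Subgroup.closure T, Subgroup.closure T⁆ ≤ D.ker := by
  have h0 : ∀ a b : Γ, D a * D b = D b * D a → D ⁅a, b⁆ = 1 := by
    intro a b h
    have h1 : ⁅a, b⁆ * (b * a) = a * b := by rw [commutatorElement_def]; group
    have h2 : D ⁅a, b⁆ * D (b * a) = D (b * a) := by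
      rw [← map_mul, h1, map_mul, map_mul, h]
    calc D ⁅a, b⁆ = D ⁅a, b⁆ * (D (b * a) * D (b * a)⁻¹) := by
          rw [← map_mul D (b * a), mul_inv_cancel, map_one, mul_one]
      _ = D ⁅a, b⁆ * D (b * a) * D (b * a)⁻¹ := by rw [mul_assoc]
      _ = 1 := by rw [h2, ← map_mul, mul_inv_cancel, map_one]
  have hinv : ∀ a x : Γ, D a * D x = D x * D a → D a * D x⁻¹ = D x⁻¹ * D a := by
    intro a x h
    have e1 : D x⁻¹ * D x = 1 := by rw [← map_mul, inv_mul_cancel, map_one]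
    have e2 : D x * D x⁻¹ = 1 := by rw [← map_mul, mul_inv_cancel, map_one]
    calc D a * D x⁻¹ = (D x⁻¹ * D x) * D a * D x⁻¹ := by rw [e1, one_mul]
      _ = D x⁻¹ * (D x * D a) * D x⁻¹ := by simp only [mul_assoc]
      _ = D x⁻¹ * (D a * D x) * D x⁻¹ := by rw [h]
      _ = D x⁻¹ * D a * (D x * D x⁻¹) := by simp only [mul_assoc]
      _ = D x⁻¹ * D a := by rw [e2, mul_one]
  have hcent : ∀ a : Γ, (∀ s ∈ T, D a * D s = D s * D a) → ∀ g ∈ Subgroup.closure T,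
      D a * D g = D g * D a := by
    intro a ha g hg
    induction hg using Subgroup.closure_induction with
    | mem x hx => exact ha x hx
    | one => rw [map_one, mul_one, one_mul]
    | mul x y _ _ hx hy => rw [map_mul, ← mul_assoc, hx, mul_assoc, hy, ← mul_assoc]
    | inv x _ hx => exact hinv a x hx
  rw [Subgroup.commutator_le]
  intro x hx y hy
  refine h0 x y (hcent x (fun s hs => ?_) y hy)
  exact (hcent s (fun r hr => hT s hs r hr) x hx).symm

/-- If the linear parts tend to a bounded group up to conjugation, then a quotient of a domain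
with parallel volume is complete. -/
theorem LimData.complete (D : AffData X Γ E dev hol) (hinj : Function.Injective dev)
    {u v : ℝ → (E →L[ℝ] E)} {Dl : Γ → (E →L[ℝ] E)}
    {C : ℝ} {W : ℕ → Submodule ℝ E} {m : ℕ} (h : LimData hol u v Dl C W m) :
    IsHomeomorph dev := by
  obtain ⟨η, hη, hd⟩ := Ph_discrete D hinj
  obtain ⟨M, hM⟩ := h.tend
  have hC1 := h.one_le
  have hC0 : 0 < C := by linarith
  set D1 := Dh hol h with hD1
  let ε : ℝ := 1 / (32 * C ^ 2)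
  have hε0 : 0 < ε := by positivity
  have hεC : C * ε * C ≤ 1 / 2 := by
    have : C * ε * C = 1 / 32 := by
      show C * (1 / (32 * C ^ 2)) * C = 1 / 32
      field_simp
    rw [this]; norm_num
  have hε2 : ε ≤ 1 / 32 := by
    show 1 / (32 * C ^ 2) ≤ 1 / 32
    apply one_div_le_one_div_of_le (by norm_num)
    nlinarith
  let T : Set Γ := {γ | γ ∈ commutator Γ ∧ ∀ σ : Γ, ‖Dl (σ * γ * σ⁻¹) - 1‖ ≤ ε}
  have hT1 : ∀ γ ∈ T, ‖Dl γ - 1‖ ≤ ε := by
    intro γ hγ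
    have := hγ.2 1
    rwa [one_mul, inv_one, mul_one] at this
  have hTc : ∀ γ ∈ T, ∀ τ : Γ, τ * γ * τ⁻¹ ∈ T := by
    intro γ hγ τ
    refine ⟨(inferInstance : (commutator Γ).Normal).conj_mem _ hγ.1 τ, fun σ => ?_⟩
    have h1 : σ * (τ * γ * τ⁻¹) * σ⁻¹ = (σ * τ) * γ * (σ * τ)⁻¹ := by group
    rw [h1]; exact hγ.2 _
  have hcomm : ∀ x ∈ T, ∀ y ∈ T, D1 x * D1 y = D1 y * D1 x := by
    intro x hx y hy
    apply Dt_inj D1
    refine zj (Ph hol) (Dt D1) norm_one_le' hη hd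
      (fun t => mkD (u t) (Real.exp (-(M * t)))) (fun t => mkD (v t) (Real.exp (M * t)))
      (fun t => ?_) (fun t => ?_) (fun γ => hM γ) (N := commutator Γ) (C := C) (ε := ε)
      (fun γ hγ => Dt_norm D1 hC1 (h.bdd γ hγ)) hεC hC0.le hε2 hx.1 hy.1
      ((Dt_sub D1 x).trans (hT1 x hx)) ((Dt_sub D1 y).trans (hT1 y hy))
    · refine ContinuousLinearMap.ext fun p => ?_
      show mkD (u t) _ (mkD (v t) _ p) = p
      rw [mkD_apply, mkD_apply]
      have h1 : u t (v t p.1) = p.1 := congrArg (fun S : E →L[ℝ] E => S p.1) (h.uv t)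
      ext
      · exact h1
      · show Real.exp (-(M * t)) * (Real.exp (M * t) * p.2) = p.2
        rw [← mul_assoc, ← Real.exp_add, neg_add_cancel, Real.exp_zero, one_mul]
    · refine ContinuousLinearMap.ext fun p => ?_
      show mkD (v t) _ (mkD (u t) _ p) = p
      rw [mkD_apply, mkD_apply]
      have h1 : v t (u t p.1) = p.1 := congrArg (fun S : E →L[ℝ] E => S p.1) (h.vu t)
      ext
      · exact h1
      · show Real.exp (M * t) * (Real.exp (-(M * t)) * p.2) = p.2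
        rw [← mul_assoc, ← Real.exp_add, add_neg_cancel, Real.exp_zero, one_mul]
  let Λ : Subgroup Γ := Subgroup.closure T
  have hΛn : Λ.Normal := conj_inv_closure hTc
  have hΛk : ⁅Λ, Λ⁆ ≤ D1.ker := comm_closure D1 hcomm
  have hs : Group.IsSolvable (Λ.map (AffineEquiv.linearHom.comp hol)) := by
    refine solvable_of_commutator (K := Un W h.mono 1) ?_ (Un_solvable W h.mono h.bot h.top)
    rw [← Subgroup.map_commutator]
    rintro _ ⟨γ, hγ, rfl⟩
    exact h.ker γ (hΛk hγ)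
  have hf : Finite ((commutator Γ).map (QuotientGroup.mk' Λ)) := by
    -- a finite cover
    let r : ℝ := ε / (2 * C ^ 2)
    have hr0 : 0 < r := by positivity
    have : ProperSpace (E →L[ℝ] E) := FiniteDimensional.proper_real (E →L[ℝ] E)
    obtain ⟨t, -, htf, htc⟩ := (isCompact_closedBall (0 : E →L[ℝ] E) C).finite_cover_balls hr0
    have hcen : ∀ γ : commutator Γ, ∃ x ∈ t, ‖Dl γ - x‖ < r := by
      intro γ
      have h1 : Dl γ ∈ closedBall (0 : E →L[ℝ] E) C := by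
        rw [mem_closedBall, dist_zero_right]; exact h.bdd γ γ.2
      obtain ⟨x, hx, hx'⟩ := mem_iUnion₂.1 (htc h1)
      exact ⟨x, hx, by rw [← dist_eq_norm]; exact hx'⟩
    choose c hct hc using hcen
    have hrep : ∀ q : (commutator Γ).map (QuotientGroup.mk' Λ), ∃ γ : commutator Γ,
        QuotientGroup.mk' Λ (γ : Γ) = (q : Γ ⧸ Λ) := by
      rintro ⟨_, γ, hγ, rfl⟩
      exact ⟨⟨γ, hγ⟩, rfl⟩
    choose rep hrep using hrep
    have := htf.to_subtype
    refine Finite.of_injective (fun q => (⟨c (rep q), hct (rep q)⟩ : t)) ?_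
    intro q q' hqq
    have h1 : c (rep q) = c (rep q') := congrArg Subtype.val hqq
    set γ := rep q with hγ
    set δ := rep q' with hδ
    have h2 : ‖Dl γ - Dl δ‖ < 2 * r := by
      have e1 : Dl γ - Dl δ = (Dl γ - c γ) - (Dl δ - c δ) := by rw [h1]; abel
      rw [e1]
      have e2 := norm_sub_le (Dl γ - c γ) (Dl δ - c δ)
      have e3 := hc γ
      have e4 := hc δ
      linarith
    have h3 : ((δ : Γ)⁻¹ * (γ : Γ)) ∈ commutator Γ := mul_mem (inv_mem δ.2) γ.2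
    have h4 : ‖Dl ((δ : Γ)⁻¹ * (γ : Γ)) - 1‖ ≤ C * (2 * r) := by
      have e1 : Dl ((δ : Γ)⁻¹ * (γ : Γ)) - 1 = Dl (δ : Γ)⁻¹ * (Dl γ - Dl δ) := by
        have e2 : Dl ((δ : Γ)⁻¹ * (γ : Γ)) = Dl (δ : Γ)⁻¹ * Dl γ := map_mul D1 _ _
        have e3 : Dl (δ : Γ)⁻¹ * Dl δ = 1 := map_inv_mul D1 _
        rw [e2, mul_sub, e3]
      rw [e1]
      refine (norm_mul_le _ _).trans ?_
      gcongr
      exact h.bdd _ (inv_mem δ.2)
    have h5 : ((δ : Γ)⁻¹ * (γ : Γ)) ∈ T := by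
      refine ⟨h3, fun σ => (h.conj σ _ h3).trans ?_⟩
      calc C * ‖Dl ((δ : Γ)⁻¹ * (γ : Γ)) - 1‖ ≤ C * (C * (2 * r)) := by gcongr
        _ = ε := by
            show C * (C * (2 * (ε / (2 * C ^ 2)))) = ε
            field_simp
    have h6 : QuotientGroup.mk' Λ (δ : Γ) = QuotientGroup.mk' Λ (γ : Γ) :=
      QuotientGroup.eq.2 (Subgroup.subset_closure h5)
    apply Subtype.ext
    rw [← hrep q, ← hrep q', ← hγ, ← hδ, h6]
  obtain ⟨K, hK, hKs⟩ := virt_solvable (AffineEquiv.linearHom.comp hol) Λ hf hs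
  exact Pool.Agent.Y449.MS.Wrap.main Pool.Agent.Y449.MS.All.finv X Γ E dev hol D hinj K hK hKs

end geo

end Pool.Agent.E8helper77.Mk
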