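import Pool.Agent.E8helper77.Mk.Wt
import Pool.Agent.R522.Mk.Rk1

/-!
Groups of real rank one: linear holonomy in an arbitrary representation.
-/

set_option autoImplicit false
set_option linter.unusedSectionVars false

open Set Filter Topology Metric
open scoped commutatorElement
open Pool.Agent.W689.Mk Pool.Agent.TH94.MK

namespace Pool.Agent.E8helper77.Mk

/-- The decompositions of a group of real rank one: `K` compact, `a` a one parameter group, `P` the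
minimal parabolic subgroup, `w` the Weyl element. -/
structure RankOne (G : Type) [Group G] [TopologicalSpace G] where
  /-- the compact subgroup -/
  K : Subgroup G
  /-- the parabolic subgroup -/
  P : Subgroup G
  /-- the one parameter group -/
  a : ℝ → G
  /-- the Weyl element -/
  w : G
  compact : IsCompact (K : Set G)
  a_add : ∀ s t, a (s + t) = a s * a t
  a_cont : Continuous a
  weyl : ∀ t, w⁻¹ * a t * w = a (-t)
  /-- Cartan decomposition -/
  cartan : ∀ g, ∃ k ∈ K, ∃ l ∈ K, ∃ t, 0 ≤ t ∧ g = k * a t * l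
  /-- Iwasawa decomposition -/
  iwasawa : ∀ g, ∃ k ∈ K, ∃ p ∈ P, g = k * p
  /-- Bruhat decomposition -/
  bruhat : ∀ g, g ∉ P → ∃ p ∈ P, ∃ q ∈ P, g = p * w * q
  /-- Langlands decomposition of the parabolic subgroup -/
  langlands : ∀ p ∈ P, ∃ k ∈ K, ∃ s : ℝ, Tendsto (fun t => a (-t) * p * a t) atTop (𝓝 (k * a s))

section rep
variable {E G : Type} [NormedAddCommGroup E] [NormedSpace ℝ E] [FiniteDimensional ℝ E]
  [Group G] [TopologicalSpace G] [IsTopologicalGroup G]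
  (R1 : RankOne G) (ρ : G →* (E ≃ₗ[ℝ] E))

theorem RankOne.a_zero : R1.a 0 = 1 := by
  have h := R1.a_add 0 0
  rw [add_zero] at h
  exact (mul_eq_left.1 h.symm)

theorem RankOne.a_neg_mul (t : ℝ) : R1.a (-t) * R1.a t = 1 := by
  rw [← R1.a_add, neg_add_cancel, R1.a_zero]

theorem RankOne.a_mul_neg (t : ℝ) : R1.a t * R1.a (-t) = 1 := by
  rw [← R1.a_add, add_neg_cancel, R1.a_zero]

theorem RankOne.a_inv (t : ℝ) : (R1.a t)⁻¹ = R1.a (-t) := by
  rw [inv_eq_iff_mul_eq_one]; exact R1.a_mul_neg t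

theorem rho_mul (g h : G) (v : E) : ρ (g * h) v = ρ g (ρ h v) := by
  rw [map_mul]; rfl

theorem rho_inv_apply (g : G) (v : E) : ρ g⁻¹ (ρ g v) = v := by
  rw [← rho_mul, inv_mul_cancel, map_one]; rfl

theorem rho_apply_inv (g : G) (v : E) : ρ g (ρ g⁻¹ v) = v := by
  rw [← rho_mul, mul_inv_cancel, map_one]; rfl

theorem rho_symm (g : G) (v : E) : (ρ g).symm v = ρ g⁻¹ v := by
  rw [LinearEquiv.symm_apply_eq, rho_apply_inv]

/-- the vectors with bounded orbit under the contracting half of the one parameter group -/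
def up : Submodule ℝ E where
  carrier := {v | ∃ C : ℝ, ∀ t : ℝ, 0 ≤ t → ‖ρ (R1.a (-t)) v‖ ≤ C}
  add_mem' := by
    rintro v w ⟨C, hC⟩ ⟨C', hC'⟩
    exact ⟨C + C', fun t ht => by
      rw [map_add]; exact (norm_add_le _ _).trans (add_le_add (hC t ht) (hC' t ht))⟩
  zero_mem' := ⟨0, fun t _ => by rw [map_zero, norm_zero]⟩
  smul_mem' := by
    rintro c v ⟨C, hC⟩
    exact ⟨‖c‖ * C, fun t ht => by
      rw [map_smul, norm_smul]; exact mul_le_mul_of_nonneg_left (hC t ht) (norm_nonneg _)⟩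

/-- the operators -/
noncomputable def Rr : G →* (E →L[ℝ] E) where
  toFun g := LinearMap.toContinuousLinearMap (ρ g : E →ₗ[ℝ] E)
  map_one' := by
    ext v
    show ρ 1 v = v
    rw [map_one]; rfl
  map_mul' g h := by
    ext v
    show ρ (g * h) v = ρ g (ρ h v)
    rw [rho_mul]

theorem Rr_apply (g : G) (v : E) : Rr ρ g v = ρ g v := rfl

theorem Rr_cont (hc : ∀ v, Continuous fun g : G => ρ g v) : Continuous (Rr ρ) :=
  continuous_clm_apply.2 hc

theorem bddK (hc : ∀ v, Continuous fun g : G => ρ g v) {S : Set G} (hS : IsCompact S) :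
    ∃ C, 1 ≤ C ∧ ∀ g ∈ S, ‖Rr ρ g‖ ≤ C := by
  obtain ⟨C, hC⟩ := hS.exists_bound_of_continuousOn (Rr_cont ρ hc).continuousOn
  exact ⟨|C| + 1, by linarith [abs_nonneg C], fun g hg => (hC g hg).trans (by
    linarith [le_abs_self C])⟩

theorem bdd_conj (hc : ∀ v, Continuous fun g : G => ρ g v) {p : G} (hp : p ∈ R1.P) :
    ∃ C, 0 ≤ C ∧ ∀ t, 0 ≤ t → ‖Rr ρ (R1.a (-t) * p * R1.a t)‖ ≤ C := by
  obtain ⟨k, -, s, hlim⟩ := R1.langlands p hp
  have h1 : Tendsto (fun t => ‖Rr ρ (R1.a (-t) * p * R1.a t)‖) atTop (𝓝 ‖Rr ρ (k * R1.a s)‖) :=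
    (((Rr_cont ρ hc).tendsto _).comp hlim).norm
  have h2 := h1.eventually_le_const (show ‖Rr ρ (k * R1.a s)‖ < ‖Rr ρ (k * R1.a s)‖ + 1 by linarith)
  obtain ⟨T, hT⟩ := eventually_atTop.1 h2
  have h3 : Continuous fun t => Rr ρ (R1.a (-t) * p * R1.a t) := by
    have := R1.a_cont
    exact (Rr_cont ρ hc).comp (by fun_prop)
  obtain ⟨C, hC⟩ := (isCompact_Icc (a := (0 : ℝ)) (b := T)).exists_bound_of_continuousOn
    h3.continuousOn
  refine ⟨max (|C|) (‖Rr ρ (k * R1.a s)‖ + 1), (abs_nonneg C).trans (le_max_left _ _),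
    fun t ht => ?_⟩
  rcases le_total T t with h | h
  · exact (hT t h).trans (le_max_right _ _)
  · exact ((hC t ⟨ht, h⟩).trans (le_abs_self C)).trans (le_max_left _ _)

theorem up_inv (hc : ∀ v, Continuous fun g : G => ρ g v) {b : G} (hb : b ∈ R1.P) {v : E}
    (hv : v ∈ up R1 ρ) : ρ b v ∈ up R1 ρ := by
  obtain ⟨C0, hC0, h0⟩ := bdd_conj R1 ρ hc hb
  obtain ⟨C, hC⟩ := hv
  refine ⟨C0 * C, fun t ht => ?_⟩
  have e : ρ (R1.a (-t)) (ρ b v) = Rr ρ (R1.a (-t) * b * R1.a t) (ρ (R1.a (-t)) v) := by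
    rw [Rr_apply, ← rho_mul, ← rho_mul, mul_assoc (R1.a (-t) * b), R1.a_mul_neg, mul_one]
  rw [e]
  refine (ContinuousLinearMap.le_opNorm _ _).trans ?_
  exact mul_le_mul (h0 t ht) (hC t ht) (norm_nonneg _) hC0

theorem down_up {v : E} (hc : ∀ v, Continuous fun g : G => ρ g v)
    (hv : ∃ C : ℝ, ∀ t : ℝ, 0 ≤ t → ‖ρ (R1.a t) v‖ ≤ C) : ρ R1.w⁻¹ v ∈ up R1 ρ := by
  obtain ⟨C, hC⟩ := hv
  refine ⟨‖Rr ρ R1.w⁻¹‖ * C, fun t ht => ?_⟩
  have h1 : R1.a (-t) * R1.w⁻¹ = R1.w⁻¹ * R1.a t := by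
    rw [← R1.weyl t]; group
  rw [← rho_mul, h1, rho_mul, ← Rr_apply ρ R1.w⁻¹]
  refine (ContinuousLinearMap.le_opNorm _ _).trans ?_
  exact mul_le_mul_of_nonneg_left (hC t ht) (norm_nonneg _)

/-- every vector is a sum of a vector of nonnegative and a vector of nonpositive weight -/
def Dec : Prop := ∀ e : E, ∃ v1 v2, e = v1 + v2 ∧ v1 ∈ up R1 ρ ∧
  ∃ C : ℝ, ∀ t : ℝ, 0 ≤ t → ‖ρ (R1.a t) v2‖ ≤ C

theorem trans0 (hc : ∀ v, Continuous fun g : G => ρ g v) (hD : Dec R1 ρ) {m : G}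
    (hm : m ∉ R1.P) (e : E) : ∃ f ∈ up R1 ρ, ∃ f' ∈ up R1 ρ, f - ρ m f' = e := by
  obtain ⟨b1, hb1, b2, hb2, hmb⟩ := R1.bruhat m hm
  obtain ⟨v1, v2, he, h1, h2⟩ := hD (ρ b1⁻¹ e)
  refine ⟨ρ b1 v1, up_inv R1 ρ hc hb1 h1, -(ρ b2⁻¹ (ρ R1.w⁻¹ v2)),
    (up R1 ρ).neg_mem (up_inv R1 ρ hc (inv_mem hb2) (down_up R1 ρ hc h2)), ?_⟩
  rw [map_neg, sub_neg_eq_add]
  have h3 : ρ m (ρ b2⁻¹ (ρ R1.w⁻¹ v2)) = ρ b1 v2 := by
    conv_lhs => rw [hmb]
    rw [rho_mul, rho_mul, rho_apply_inv, rho_apply_inv]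
  rw [h3, ← map_add, ← he, rho_apply_inv]

/-- the plates -/
noncomputable def plate (g : G) : up R1 ρ →L[ℝ] E := (Rr ρ g).comp (up R1 ρ).subtypeL

theorem plate_apply (g : G) (f : up R1 ρ) : plate R1 ρ g f = ρ g f := rfl

theorem mem_range_mul (g k : G) (u : E) :
    u ∈ range (plate R1 ρ (g * k)) ↔ (ρ g).symm u ∈ range (plate R1 ρ k) := by
  rw [rho_symm]
  constructor
  · rintro ⟨f, rfl⟩
    refine ⟨f, ?_⟩
    rw [plate_apply, plate_apply, rho_mul, rho_inv_apply]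
  · rintro ⟨f, hf⟩
    refine ⟨f, ?_⟩
    rw [plate_apply, rho_mul, ← plate_apply, hf, rho_apply_inv]

theorem range_mul_upper (hc : ∀ v, Continuous fun g : G => ρ g v) (g : G) {b : G}
    (hb : b ∈ R1.P) : range (plate R1 ρ (g * b)) = range (plate R1 ρ g) := by
  apply Subset.antisymm
  · rintro _ ⟨f, rfl⟩
    refine ⟨⟨ρ b f, up_inv R1 ρ hc hb f.2⟩, ?_⟩
    rw [plate_apply, plate_apply, rho_mul]
  · rintro _ ⟨f, rfl⟩
    refine ⟨⟨ρ b⁻¹ f, up_inv R1 ρ hc (inv_mem hb) f.2⟩, ?_⟩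
    rw [plate_apply, plate_apply, rho_mul, rho_apply_inv]

theorem trans1 (hc : ∀ v, Continuous fun g : G => ρ g v) (hD : Dec R1 ρ) {g h : G}
    (hm : g⁻¹ * h ∉ R1.P) : Pool.Agent.R522.Mk.Rk.Trans (plate R1 ρ g) (plate R1 ρ h) := by
  intro e
  obtain ⟨f, hf, f', hf', he⟩ := trans0 R1 ρ hc hD hm (ρ g⁻¹ e)
  refine ⟨⟨f, hf⟩, ⟨f', hf'⟩, ?_⟩
  rw [plate_apply, plate_apply]
  have h1 := congrArg (ρ g) he
  rw [map_sub, rho_apply_inv, ← rho_mul, mul_inv_cancel_left] at h1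
  exact h1

theorem fam_all (hc : ∀ v, Continuous fun g : G => ρ g v) (hD : Dec R1 ρ) (g h : G) :
    range (plate R1 ρ g) = range (plate R1 ρ h) ∨
      Pool.Agent.R522.Mk.Rk.Trans (plate R1 ρ g) (plate R1 ρ h) := by
  by_cases hm : g⁻¹ * h ∈ R1.P
  · left
    have h1 : h = g * (g⁻¹ * h) := by group
    rw [h1, range_mul_upper R1 ρ hc g hm]
  · right
    exact trans1 R1 ρ hc hD hm

theorem lower (hc : ∀ v, Continuous fun g : G => ρ g v) : ∃ δ : ℝ, 0 < δ ∧ ∀ g : G, ∃ k ∈ R1.K,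
    ∀ f, δ * ‖(ρ g).symm (plate R1 ρ k f)‖ ≤ ‖plate R1 ρ k f‖ := by
  have : CompleteSpace (up R1 ρ) := FiniteDimensional.complete ℝ (up R1 ρ)
  obtain ⟨C1, hC1, h1⟩ := bddK ρ hc R1.compact
  obtain ⟨C2, hC2⟩ := banach_steinhaus (ι := {t : ℝ // 0 ≤ t})
    (g := fun t => plate R1 ρ (R1.a (-t.1))) (fun f => by
      obtain ⟨C, hC⟩ := f.2
      exact ⟨C, fun t => hC t.1 t.2⟩)
  have hb : ∀ g ∈ R1.K, ∀ v, ‖ρ g v‖ ≤ C1 * ‖v‖ := fun g hg v =>
    ((Rr ρ g).le_opNorm v).trans (mul_le_mul_of_nonneg_right (h1 g hg) (norm_nonneg _))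
  refine ⟨1 / (C1 * (|C2| + 1) * C1), by positivity, fun g => ?_⟩
  obtain ⟨k, hk, l, hl, t, ht, hg⟩ := R1.cartan g
  refine ⟨k, hk, fun f => ?_⟩
  have e : (ρ g).symm (plate R1 ρ k f) = ρ l⁻¹ (ρ (R1.a (-t)) f) := by
    rw [rho_symm, plate_apply, ← rho_mul, ← rho_mul]
    congr 2
    rw [hg, mul_inv_rev, mul_inv_rev, R1.a_inv]
    group
  rw [e, one_div, inv_mul_le_iff₀ (by positivity)]
  calc ‖ρ l⁻¹ (ρ (R1.a (-t)) f)‖ ≤ C1 * ‖ρ (R1.a (-t)) f‖ := hb _ (inv_mem hl) _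
    _ = C1 * ‖plate R1 ρ (R1.a (-t)) f‖ := rfl
    _ ≤ C1 * ((|C2| + 1) * ‖f‖) := by
        gcongr
        refine ((plate R1 ρ (R1.a (-t))).le_opNorm f).trans ?_
        gcongr
        exact (hC2 ⟨t, ht⟩).trans (by linarith [le_abs_self C2])
    _ = C1 * ((|C2| + 1) * ‖ρ k⁻¹ (ρ k f)‖) := by rw [rho_inv_apply]; rfl
    _ ≤ C1 * ((|C2| + 1) * (C1 * ‖ρ k f‖)) := by
        gcongr
        exact hb _ (inv_mem hk) _
    _ = C1 * (|C2| + 1) * C1 * ‖plate R1 ρ k f‖ := by rw [plate_apply]; ring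

/-- weight vectors -/
def Weights : Prop := Submodule.span ℝ
    {v : E | ∃ c : ℝ, ∀ t : ℝ, ρ (R1.a t) v = Real.exp (c * t) • v} = ⊤

theorem dec_of_weights (hw : Weights R1 ρ) : Dec R1 ρ := by
  intro e
  have he : e ∈ Submodule.span ℝ
      {v : E | ∃ c : ℝ, ∀ t : ℝ, ρ (R1.a t) v = Real.exp (c * t) • v} := by
    rw [hw]; exact Submodule.mem_top
  induction he using Submodule.span_induction with
  | mem v hv =>
    obtain ⟨c, hc⟩ := hv
    rcases le_total 0 c with h | h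
    · refine ⟨v, 0, (add_zero v).symm, ⟨‖v‖, fun t ht => ?_⟩, 0, fun t _ => ?_⟩
      · rw [hc, norm_smul, Real.norm_eq_abs, abs_of_pos (Real.exp_pos _)]
        have h1 : Real.exp (c * -t) ≤ 1 := by
          rw [Real.exp_le_one_iff]; nlinarith
        calc Real.exp (c * -t) * ‖v‖ ≤ 1 * ‖v‖ := by gcongr
          _ = ‖v‖ := one_mul _
      · rw [map_zero, norm_zero]
    · refine ⟨0, v, (zero_add v).symm, (up R1 ρ).zero_mem, ‖v‖, fun t ht => ?_⟩
      rw [hc, norm_smul, Real.norm_eq_abs, abs_of_pos (Real.exp_pos _)]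
      have h1 : Real.exp (c * t) ≤ 1 := by
        rw [Real.exp_le_one_iff]; nlinarith
      calc Real.exp (c * t) * ‖v‖ ≤ 1 * ‖v‖ := by gcongr
        _ = ‖v‖ := one_mul _
  | zero => exact ⟨0, 0, (add_zero 0).symm, (up R1 ρ).zero_mem, 0, fun t _ => by
      rw [map_zero, norm_zero]⟩
  | add x y _ _ hx hy =>
    obtain ⟨v1, v2, h1, h2, C, h3⟩ := hx
    obtain ⟨w1, w2, k1, k2, C', k3⟩ := hy
    refine ⟨v1 + w1, v2 + w2, ?_, (up R1 ρ).add_mem h2 k2, C + C', fun t ht => ?_⟩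
    · rw [h1, k1]; abel
    · rw [map_add]
      exact (norm_add_le _ _).trans (add_le_add (h3 t ht) (k3 t ht))
  | smul a x _ hx =>
    obtain ⟨v1, v2, h1, h2, C, h3⟩ := hx
    refine ⟨a • v1, a • v2, ?_, (up R1 ρ).smul_mem a h2, ‖a‖ * C, fun t ht => ?_⟩
    · rw [h1, smul_add]
    · rw [map_smul, norm_smul]
      exact mul_le_mul_of_nonneg_left (h3 t ht) (norm_nonneg _)

theorem exists_basis (hw : Weights R1 ρ) : ∃ (n : ℕ) (b : Module.Basis (Fin n) ℝ E)
    (c : Fin n → ℝ), ∀ i t, ρ (R1.a t) (b i) = Real.exp (c i * t) • b i := by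
  set s : Set E := {v : E | ∃ c : ℝ, ∀ t : ℝ, ρ (R1.a t) v = Real.exp (c * t) • v} with hs
  let b0 := Module.Basis.ofSpan (s := s) (le_of_eq hw.symm)
  have hb0 : range b0 ⊆ s := Module.Basis.ofSpan_subset _
  let e := (Module.Finite.finite_basis b0)
  have := Fintype.ofFinite
    (((linearIndepOn_empty ℝ id).extend (empty_subset s) : Set E))
  let b := b0.reindex (Fintype.equivFin _)
  have hb : ∀ i, b i ∈ s := by
    intro i
    rw [Module.Basis.reindex_apply]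
    exact hb0 (mem_range_self _)
  choose c hc using hb
  exact ⟨_, b, c, fun i t => hc i t⟩

end rep

section par
variable {G : Type} [Group G] [TopologicalSpace G] [IsTopologicalGroup G] (R1 : RankOne G)

theorem conj_lim_mul {p q x y : G} (hp : Tendsto (fun t => R1.a (-t) * p * R1.a t) atTop (𝓝 x))
    (hq : Tendsto (fun t => R1.a (-t) * q * R1.a t) atTop (𝓝 y)) :
    Tendsto (fun t => R1.a (-t) * (p * q) * R1.a t) atTop (𝓝 (x * y)) := by
  have h1 : (fun t => R1.a (-t) * (p * q) * R1.a t) =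
      fun t => (R1.a (-t) * p * R1.a t) * (R1.a (-t) * q * R1.a t) := by
    funext t
    have h2 := R1.a_mul_neg t
    calc R1.a (-t) * (p * q) * R1.a t = R1.a (-t) * p * 1 * q * R1.a t := by
          simp only [mul_one, mul_assoc]
      _ = R1.a (-t) * p * (R1.a t * R1.a (-t)) * q * R1.a t := by rw [h2]
      _ = _ := by simp only [mul_assoc]
  rw [h1]
  exact hp.mul hq

theorem conj_lim_inv {p x : G} (hp : Tendsto (fun t => R1.a (-t) * p * R1.a t) atTop (𝓝 x)) :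
    Tendsto (fun t => R1.a (-t) * p⁻¹ * R1.a t) atTop (𝓝 x⁻¹) := by
  have h1 : (fun t => R1.a (-t) * p⁻¹ * R1.a t) =
      fun t => (R1.a (-t) * p * R1.a t)⁻¹ := by
    funext t
    rw [mul_inv_rev, mul_inv_rev, R1.a_inv, R1.a_inv, neg_neg, mul_assoc]
  rw [h1]
  exact hp.inv

/-- limits are fixed by conjugation, if unique -/
theorem conj_lim_fix [T2Space G] {p x : G}
    (hp : Tendsto (fun t => R1.a (-t) * p * R1.a t) atTop (𝓝 x)) (s : ℝ) :
    R1.a s * x = x * R1.a s := by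
  have h1 : Tendsto (fun t => R1.a (-s) * (R1.a (-t) * p * R1.a t) * R1.a s) atTop
      (𝓝 (R1.a (-s) * x * R1.a s)) := (hp.const_mul _).mul_const _
  have h2 : (fun t => R1.a (-s) * (R1.a (-t) * p * R1.a t) * R1.a s) =
      (fun t => R1.a (-t) * p * R1.a t) ∘ fun t => t + s := by
    funext t
    show _ = R1.a (-(t + s)) * p * R1.a (t + s)
    rw [R1.a_add, neg_add_rev, R1.a_add]
    simp only [mul_assoc]
  rw [h2] at h1
  have h3 : Tendsto ((fun t => R1.a (-t) * p * R1.a t) ∘ fun t : ℝ => t + s) atTop (𝓝 x) :=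
    hp.comp (tendsto_atTop_add_const_right _ _ tendsto_id)
  have h4 := tendsto_nhds_unique h1 h3
  calc R1.a s * x = R1.a s * (R1.a (-s) * x * R1.a s) := by rw [h4]
    _ = (R1.a s * R1.a (-s)) * x * R1.a s := by simp only [mul_assoc]
    _ = x * R1.a s := by rw [R1.a_mul_neg, one_mul]

/-- elements with limit in `K` -/
def Lk : Subgroup G where
  carrier := {p | ∃ l ∈ R1.K, Tendsto (fun t => R1.a (-t) * p * R1.a t) atTop (𝓝 l)}
  mul_mem' := by
    rintro p q ⟨l, hl, h⟩ ⟨l', hl', h'⟩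
    exact ⟨l * l', mul_mem hl hl', conj_lim_mul R1 h h'⟩
  one_mem' := ⟨1, one_mem _, by
    have : (fun t => R1.a (-t) * 1 * R1.a t) = fun _ : ℝ => (1 : G) := by
      funext t; rw [mul_one, R1.a_neg_mul]
    rw [this]; exact tendsto_const_nhds⟩
  inv_mem' := by
    rintro p ⟨l, hl, h⟩
    exact ⟨l⁻¹, inv_mem hl, conj_lim_inv R1 h⟩

theorem comm_le_Lk [T2Space G] : ⁅R1.P, R1.P⁆ ≤ Lk R1 := by
  rw [Subgroup.commutator_le]
  intro p hp q hq
  obtain ⟨k, hk, s, h⟩ := R1.langlands p hp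
  obtain ⟨k', hk', s', h'⟩ := R1.langlands q hq
  refine ⟨⁅k, k'⁆, ?_, ?_⟩
  · rw [commutatorElement_def]
    exact mul_mem (mul_mem (mul_mem hk hk') (inv_mem hk)) (inv_mem hk')
  · have h1 := conj_lim_mul R1 (conj_lim_mul R1 (conj_lim_mul R1 h h') (conj_lim_inv R1 h))
      (conj_lim_inv R1 h')
    have e0 : ∀ r, R1.a r * k = k * R1.a r := by
      intro r
      have h2 := conj_lim_fix R1 h r
      have h3 : R1.a r * R1.a s = R1.a s * R1.a r := by rw [← R1.a_add, ← R1.a_add, add_comm]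
      rw [mul_assoc, ← h3, ← mul_assoc, ← mul_assoc] at h2
      exact mul_right_cancel h2
    have e0' : ∀ r, R1.a r * k' = k' * R1.a r := by
      intro r
      have h2 := conj_lim_fix R1 h' r
      have h3 : R1.a r * R1.a s' = R1.a s' * R1.a r := by rw [← R1.a_add, ← R1.a_add, add_comm]
      rw [mul_assoc, ← h3, ← mul_assoc, ← mul_assoc] at h2
      exact mul_right_cancel h2
    have e1 : k * R1.a s * (k' * R1.a s') * (k * R1.a s)⁻¹ * (k' * R1.a s')⁻¹ = ⁅k, k'⁆ := by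
      have c1 : Commute (R1.a s) k' := e0' s
      have c2 : Commute (R1.a s') k := e0 s'
      have c3 : Commute (R1.a s) k := e0 s
      have c4 : Commute (R1.a s') k' := e0' s'
      have c5 : Commute (R1.a s) (R1.a s') := by
        show R1.a s * R1.a s' = R1.a s' * R1.a s
        rw [← R1.a_add, ← R1.a_add, add_comm]
      have f1 : k * R1.a s * (k' * R1.a s') = (k * k') * (R1.a s * R1.a s') := by
        calc k * R1.a s * (k' * R1.a s') = k * (R1.a s * k') * R1.a s' := by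
              simp only [mul_assoc]
          _ = k * (k' * R1.a s) * R1.a s' := by rw [c1.eq]
          _ = _ := by simp only [mul_assoc]
      have f2 : (k * R1.a s)⁻¹ * (k' * R1.a s')⁻¹ = (R1.a s * R1.a s')⁻¹ * (k' * k)⁻¹ := by
        rw [← mul_inv_rev, ← mul_inv_rev]
        congr 1
        calc k' * R1.a s' * (k * R1.a s) = k' * (R1.a s' * k) * R1.a s := by
              simp only [mul_assoc]
          _ = k' * (k * R1.a s') * R1.a s := by rw [c2.eq]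
          _ = k' * k * (R1.a s' * R1.a s) := by simp only [mul_assoc]
          _ = k' * k * (R1.a s * R1.a s') := by rw [c5.eq]
      rw [mul_assoc (k * R1.a s * (k' * R1.a s')), f1, f2, commutatorElement_def]
      group
    rw [e1] at h1
    rw [commutatorElement_def]
    exact h1

end par

end Pool.Agent.E8helper77.Mk
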