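import Pool.Agent.E8helper77.Mk.RK

/-!
Linear holonomy in a group of real rank one: completeness.
-/

set_option autoImplicit false
set_option linter.unusedSectionVars false

open Set Filter Topology Metric
open scoped commutatorElement
open Pool.Agent.W689.Mk Pool.Agent.TH94.MK

namespace Pool.Agent.E8helper77.Mk

section
variable {E G Γ X : Type} [NormedAddCommGroup E] [NormedSpace ℝ E] [FiniteDimensional ℝ E]
  [Group Γ] {hol : Γ →* (E ≃ᵃ[ℝ] E)}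
  [TopologicalSpace X] [T2Space X] [SecondCountableTopology X] [MulAction Γ X]
  {dev : X → E} [Group G] [TopologicalSpace G] [IsTopologicalGroup G] [T2Space G]

/-- parabolic linear holonomy -/
theorem parabolic_complete [Nonempty X] (D : AffData X Γ E dev hol)
    (hinj : Function.Injective dev)
    (R1 : RankOne G) (ρ : G →* (E ≃ₗ[ℝ] E)) (hc : ∀ v, Continuous fun g : G => ρ g v)
    (hw : Weights R1 ρ) (k : G) (g : Γ → G) (hg : ∀ γ, (hol γ).linear = ρ (g γ))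
    (hP : ∀ γ, k⁻¹ * g γ * k ∈ R1.P) : IsHomeomorph dev := by
  obtain ⟨n, b, c, hb⟩ := exists_basis R1 ρ hw
  choose kk hkk s hlim using fun γ => R1.langlands _ (hP γ)
  have hRc := Rr_cont ρ hc
  -- conjugates
  have hconj : ∀ (γ : Γ) (p : G), (hol γ).linear = ρ (k * p * k⁻¹) → ∀ t : ℝ,
      Rr ρ (k * R1.a (-t) * k⁻¹) * Lc hol γ * Rr ρ (k * R1.a t * k⁻¹) =
        Rr ρ (k * (R1.a (-t) * p * R1.a t) * k⁻¹) := by
    intro γ p hp t
    have h1 : Lc hol γ = Rr ρ (k * p * k⁻¹) := by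
      ext v
      rw [Lc_apply, hp, Rr_apply]
    rw [h1, ← map_mul, ← map_mul]
    congr 1
    group
  have htend : ∀ (γ : Γ) (p y : G), (hol γ).linear = ρ (k * p * k⁻¹) →
      Tendsto (fun t => R1.a (-t) * p * R1.a t) atTop (𝓝 y) →
      Tendsto (fun t => Rr ρ (k * R1.a (-t) * k⁻¹) * Lc hol γ * Rr ρ (k * R1.a t * k⁻¹)) atTop
        (𝓝 (Rr ρ (k * y * k⁻¹))) := by
    intro γ p y hp hy
    have h1 : (fun t => Rr ρ (k * R1.a (-t) * k⁻¹) * Lc hol γ * Rr ρ (k * R1.a t * k⁻¹)) =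
        fun t => Rr ρ (k * (R1.a (-t) * p * R1.a t) * k⁻¹) := funext fun t => hconj γ p hp t
    rw [h1]
    exact (hRc.tendsto _).comp ((hy.const_mul k).mul_const k⁻¹)
  have hgp : ∀ γ, (hol γ).linear = ρ (k * (k⁻¹ * g γ * k) * k⁻¹) := by
    intro γ
    rw [hg γ]; congr 1; group
  obtain ⟨C0, hC0, hCb⟩ := bddK ρ hc (S := (fun l => k * l * k⁻¹) '' (R1.K : Set G))
    (R1.compact.image (by fun_prop))
  have hCb' : ∀ l ∈ R1.K, ‖Rr ρ (k * l * k⁻¹)‖ ≤ C0 := fun l hl => hCb _ ⟨l, hl, rfl⟩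
  -- commutators
  have hcomm : ∀ γ ∈ commutator Γ, ∃ p l : G, l ∈ R1.K ∧ (hol γ).linear = ρ (k * p * k⁻¹) ∧
      Tendsto (fun t => R1.a (-t) * p * R1.a t) atTop (𝓝 l) := by
    intro γ hγ
    let L : Γ →* (E ≃ₗ[ℝ] E) := AffineEquiv.linearHom.comp hol
    let ψ : G →* (E ≃ₗ[ℝ] E) := ρ.comp (MulAut.conj k).toMonoidHom
    have h1 : (commutator Γ).map L ≤ (⁅R1.P, R1.P⁆).map ψ := by
      rw [commutator_def, Subgroup.map_commutator, Subgroup.map_commutator]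
      have h2 : (⊤ : Subgroup Γ).map L ≤ R1.P.map ψ := by
        rintro _ ⟨δ, -, rfl⟩
        refine ⟨k⁻¹ * g δ * k, hP δ, ?_⟩
        show ρ (k * (k⁻¹ * g δ * k) * k⁻¹) = (hol δ).linear
        rw [← hgp]
      exact Subgroup.commutator_mono h2 h2
    obtain ⟨p, hp, hpγ⟩ := h1 ⟨γ, hγ, rfl⟩
    obtain ⟨l, hl, hpl⟩ := comm_le_Lk R1 hp
    exact ⟨p, l, hl, hpγ.symm, hpl⟩
  refine complete_of_weights D hinj (b.map (ρ k)) c
    (fun t => Rr ρ (k * R1.a t * k⁻¹)) (fun t => Rr ρ (k * R1.a (-t) * k⁻¹)) ?_ ?_ ?_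
    (fun γ => Rr ρ (k * (kk γ * R1.a (s γ)) * k⁻¹)) (fun γ => htend γ _ _ (hgp γ) (hlim γ))
    (C0 * C0) (by nlinarith) ?_ ?_
  · intro t
    rw [← map_mul]
    have h1 : k * R1.a t * k⁻¹ * (k * R1.a (-t) * k⁻¹) = 1 := by
      have h2 := R1.a_mul_neg t
      calc k * R1.a t * k⁻¹ * (k * R1.a (-t) * k⁻¹) = k * (R1.a t * R1.a (-t)) * k⁻¹ := by group
        _ = 1 := by rw [h2]; group
    rw [h1, map_one]
  · intro t
    rw [← map_mul]
    have h1 : k * R1.a (-t) * k⁻¹ * (k * R1.a t * k⁻¹) = 1 := by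
      have h2 := R1.a_neg_mul t
      calc k * R1.a (-t) * k⁻¹ * (k * R1.a t * k⁻¹) = k * (R1.a (-t) * R1.a t) * k⁻¹ := by group
        _ = 1 := by rw [h2]; group
    rw [h1, map_one]
  · intro t i
    rw [Module.Basis.map_apply, Rr_apply, rho_mul, rho_mul, rho_inv_apply, hb, map_smul]
    congr 2
    ring
  · intro γ hγ
    obtain ⟨p, l, hl, hp, hpl⟩ := hcomm γ hγ
    have h1 := tendsto_nhds_unique (htend γ _ _ (hgp γ) (hlim γ)) (htend γ p l hp hpl)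
    show ‖Rr ρ (k * (kk γ * R1.a (s γ)) * k⁻¹)‖ ≤ C0 * C0
    rw [h1]
    refine (hCb' l hl).trans ?_
    nlinarith
  · intro σ γ hγ
    obtain ⟨p, l, hl, hp, hpl⟩ := hcomm γ hγ
    have h1 := tendsto_nhds_unique (htend γ _ _ (hgp γ) (hlim γ)) (htend γ p l hp hpl)
    set q : G := k⁻¹ * g σ * k with hq
    have hql := hlim σ
    have hσ : (hol (σ * γ * σ⁻¹)).linear = ρ (k * (q * p * q⁻¹) * k⁻¹) := by
      have e0 : ∀ a : Γ, (AffineEquiv.linearHom.comp hol) a = (hol a).linear := fun _ => rfl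
      have e1 : (hol (σ * γ * σ⁻¹)).linear =
          ((hol σ).linear * (hol γ).linear * (hol σ).linear⁻¹ : E ≃ₗ[ℝ] E) := by
        rw [← e0, ← e0, ← e0, map_mul, map_mul, map_inv]
      have e2 : (hol σ).linear = ρ (k * q * k⁻¹) := hgp σ
      rw [e1, hp, e2, ← map_mul, ← map_inv, ← map_mul]
      congr 1
      group
    have h2 := conj_lim_mul R1 (conj_lim_mul R1 hql hpl) (conj_lim_inv R1 hql)
    have h3 := tendsto_nhds_unique (htend _ _ _ (hgp (σ * γ * σ⁻¹)) (hlim (σ * γ * σ⁻¹)))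
      (htend _ _ _ hσ h2)
    show ‖Rr ρ (k * (kk (σ * γ * σ⁻¹) * R1.a (s (σ * γ * σ⁻¹))) * k⁻¹) - 1‖ ≤
      C0 * C0 * ‖Rr ρ (k * (kk γ * R1.a (s γ)) * k⁻¹) - 1‖
    rw [h3, h1]
    have e2 : kk σ * R1.a (s σ) * l * (kk σ * R1.a (s σ))⁻¹ = kk σ * l * (kk σ)⁻¹ := by
      have h4 := conj_lim_fix R1 hpl (s σ)
      rw [mul_inv_rev, mul_assoc (kk σ), h4]
      group
    rw [e2]
    have e3 : Rr ρ (k * (kk σ * l * (kk σ)⁻¹) * k⁻¹) - 1 =
        Rr ρ (k * kk σ * k⁻¹) * (Rr ρ (k * l * k⁻¹) - 1) * Rr ρ (k * (kk σ)⁻¹ * k⁻¹) := by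
      rw [mul_sub, sub_mul, mul_one, ← map_mul, ← map_mul, ← map_mul]
      have f1 : k * kk σ * k⁻¹ * (k * l * k⁻¹) * (k * (kk σ)⁻¹ * k⁻¹) =
          k * (kk σ * l * (kk σ)⁻¹) * k⁻¹ := by group
      have f2 : k * kk σ * k⁻¹ * (k * (kk σ)⁻¹ * k⁻¹) = 1 := by group
      rw [f1, f2, map_one]
    rw [e3]
    calc ‖Rr ρ (k * kk σ * k⁻¹) * (Rr ρ (k * l * k⁻¹) - 1) * Rr ρ (k * (kk σ)⁻¹ * k⁻¹)‖
        ≤ ‖Rr ρ (k * kk σ * k⁻¹)‖ * ‖Rr ρ (k * l * k⁻¹) - 1‖ * ‖Rr ρ (k * (kk σ)⁻¹ * k⁻¹)‖ :=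
          (norm_mul_le _ _).trans (by gcongr; exact norm_mul_le _ _)
      _ ≤ C0 * ‖Rr ρ (k * l * k⁻¹) - 1‖ * C0 := by
          gcongr
          · exact hCb' _ (hkk σ)
          · exact hCb' _ (inv_mem (hkk σ))
      _ = C0 * C0 * ‖Rr ρ (k * l * k⁻¹) - 1‖ := by ring

theorem rank_one_complete [ConnectedSpace X] (D : AffData X Γ E dev hol)
    (hinj : Function.Injective dev)
    (R1 : RankOne G) (ρ : G →* (E ≃ₗ[ℝ] E)) (hc : ∀ v, Continuous fun g : G => ρ g v)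
    (hw : Weights R1 ρ) (hρ : ∀ γ : Γ, ∃ g : G, (hol γ).linear = ρ g) : IsHomeomorph dev := by
  have hD := dec_of_weights R1 ρ hw
  obtain ⟨δ, hδ, hlow⟩ := lower R1 ρ hc
  have hPc : IsCompact ((fun g => plate R1 ρ g) '' (R1.K : Set G)) := by
    refine R1.compact.image ?_
    exact ((ContinuousLinearMap.compL ℝ (up R1 ρ) E E).flip (up R1 ρ).subtypeL).continuous.comp
      (Rr_cont ρ hc)
  have hfix := Pool.Agent.R522.Mk.Rk.fixed_plate D hinj hPc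
    (by
      rintro _ ⟨g, -, rfl⟩ _ ⟨h, -, rfl⟩
      exact fam_all R1 ρ hc hD g h) hδ
    (by
      intro γ
      obtain ⟨g, hg⟩ := hρ γ
      obtain ⟨k, hk, h⟩ := hlow g
      refine ⟨plate R1 ρ k, ⟨k, hk, rfl⟩, fun f => ?_⟩
      rw [hg]; exact h f)
    (by
      rintro γ _ ⟨k, hk, rfl⟩
      obtain ⟨g, hg⟩ := hρ γ
      obtain ⟨l, hl, b, hb, hlb⟩ := R1.iwasawa (g * k)
      refine ⟨plate R1 ρ l, ⟨l, hl, rfl⟩, fun u => ?_⟩
      show u ∈ range (plate R1 ρ l) ↔ _ ∈ range (plate R1 ρ k)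
      rw [hg, ← mem_range_mul, hlb, range_mul_upper R1 ρ hc l hb])
  rcases hfix with h | ⟨_, ⟨k, hk, rfl⟩, hcomp, hfix⟩
  · exact h
  choose g hg using hρ
  by_cases hB : ∀ γ, k⁻¹ * g γ * k ∈ R1.P
  · exact parabolic_complete D hinj R1 ρ hc hw k g hg hB
  · -- all directions are complete
    push Not at hB
    obtain ⟨γ, hγ⟩ := hB
    obtain ⟨x⟩ := (inferInstance : Nonempty X)
    refine homeo_of_all D.loc (x := x) fun v => Geod.ex D.loc ?_
    have ht : Pool.Agent.R522.Mk.Rk.Trans (plate R1 ρ k) (plate R1 ρ (g γ * k)) := by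
      apply trans1 R1 ρ hc hD
      rw [← mul_assoc]; exact hγ
    obtain ⟨f, f', hf⟩ := ht v
    obtain ⟨f2, hf2⟩ : plate R1 ρ (g γ * k) f' ∈ range (plate R1 ρ k) := by
      have h1 := (hfix γ (plate R1 ρ (g γ * k) f')).2
      apply h1
      rw [hg γ, ← mem_range_mul]
      exact mem_range_self f'
    have h2 := hcomp x (f - f2)
    rw [map_sub] at h2
    change Geod dev x (plate R1 ρ k f - plate R1 ρ k f2) at h2
    rw [hf2, hf] at h2
    exact h2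

end

end Pool.Agent.E8helper77.Mk
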