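import Pool.Agent.E8helper77.Mk.RM

/-!
The unitary group of signature `(n, 1)` over `ℝ` or `ℂ` has real rank one.
-/

set_option autoImplicit false
set_option linter.unusedSectionVars false

open Set Filter Topology Metric
open scoped ComplexConjugate InnerProductSpace

namespace Pool.Agent.E8helper77.Mk.Un1

/-- pointwise convergence of operators on a finite dimensional space -/
theorem tendsto_of_pointwise {𝕜 E F ι : Type} [RCLike 𝕜] [NormedAddCommGroup E] [NormedSpace 𝕜 E]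
    [FiniteDimensional 𝕜 E] [NormedAddCommGroup F] [NormedSpace 𝕜 F] {l : Filter ι}
    {f : ι → E →L[𝕜] F} {y : E →L[𝕜] F} (h : ∀ v, Tendsto (fun i => f i v) l (𝓝 (y v))) :
    Tendsto f l (𝓝 y) := by
  let e : (E →L[𝕜] F) ≃L[𝕜] Fin (Module.finrank 𝕜 E) → F :=
    ((ContinuousLinearEquiv.ofFinrankEq (Module.finrank_fin_fun 𝕜).symm).arrowCongr
      (1 : F ≃L[𝕜] F)).trans (ContinuousLinearEquiv.piRing _)
  rw [e.toHomeomorph.isInducing.tendsto_nhds_iff]
  exact tendsto_pi_nhds.mpr fun i => h _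

section
variable {𝕜 V : Type} [RCLike 𝕜] [NormedAddCommGroup V] [InnerProductSpace 𝕜 V]

/-- the hermitian form `⟪x, y⟫ - conj s * t` of signature `(n, 1)` on `V × 𝕜` -/
noncomputable def hf (x y : V × 𝕜) : 𝕜 := ⟪x.1, y.1⟫_𝕜 - conj x.2 * y.2

variable (𝕜 V) in
/-- the unitary group of the form -/
def U : Subgroup ((V × 𝕜) →L[𝕜] (V × 𝕜))ˣ where
  carrier := {g | ∀ x y, hf ((g : (V × 𝕜) →L[𝕜] (V × 𝕜)) x) ((g : (V × 𝕜) →L[𝕜] (V × 𝕜)) y) = hf x y}
  one_mem' := fun _ _ => rfl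
  mul_mem' := by
    intro g h hg hh x y
    exact (hg _ _).trans (hh x y)
  inv_mem' := by
    intro g hg x y
    have h1 : ∀ v, (g : (V × 𝕜) →L[𝕜] (V × 𝕜))
        (((g⁻¹ : ((V × 𝕜) →L[𝕜] (V × 𝕜))ˣ) : (V × 𝕜) →L[𝕜] (V × 𝕜)) v) = v := by
      intro v
      rw [← mul_apply_eq_comp, Units.mul_inv]; rfl
    have h2 := hg (((g⁻¹ : ((V × 𝕜) →L[𝕜] (V × 𝕜))ˣ) : (V × 𝕜) →L[𝕜] (V × 𝕜)) x)
      (((g⁻¹ : ((V × 𝕜) →L[𝕜] (V × 𝕜))ˣ) : (V × 𝕜) →L[𝕜] (V × 𝕜)) y)
    rw [h1, h1] at h2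
    exact h2.symm

/-- the action of the unitary group -/
def ap (g : U 𝕜 V) (x : V × 𝕜) : V × 𝕜 :=
  ((g : ((V × 𝕜) →L[𝕜] (V × 𝕜))ˣ) : (V × 𝕜) →L[𝕜] (V × 𝕜)) x

theorem hf_add_left (x y z : V × 𝕜) : hf (x + y) z = hf x z + hf y z := by
  simp only [hf, Prod.fst_add, Prod.snd_add, inner_add_left, map_add]; ring

theorem hf_add_right (x y z : V × 𝕜) : hf x (y + z) = hf x y + hf x z := by
  simp only [hf, Prod.fst_add, Prod.snd_add, inner_add_right]; ring

theorem hf_smul_left (c : 𝕜) (x y : V × 𝕜) : hf (c • x) y = conj c * hf x y := by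
  simp only [hf, Prod.smul_fst, Prod.smul_snd, inner_smul_left, smul_eq_mul, map_mul]; ring

theorem hf_smul_right (c : 𝕜) (x y : V × 𝕜) : hf x (c • y) = c * hf x y := by
  simp only [hf, Prod.smul_fst, Prod.smul_snd, inner_smul_right, smul_eq_mul]; ring

theorem hf_conj (x y : V × 𝕜) : conj (hf x y) = hf y x := by
  simp only [hf, map_sub, map_mul, inner_conj_symm, RCLike.conj_conj]; ring

theorem hf_nondeg {x : V × 𝕜} (h : ∀ y, hf x y = 0) : x = 0 := by
  have h1 := h (x.1, 0)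
  have h2 := h (0, 1)
  simp only [hf, mul_zero, sub_zero, inner_zero_right, mul_one, zero_sub, neg_eq_zero] at h1 h2
  rw [inner_self_eq_zero] at h1
  rw [map_eq_zero] at h2
  exact Prod.ext h1 h2

theorem hf_cont [FiniteDimensional 𝕜 V] : Continuous fun p : (V × 𝕜) × (V × 𝕜) => hf p.1 p.2 := by
  unfold hf
  have h1 : Continuous fun p : (V × 𝕜) × (V × 𝕜) => ⟪p.1.1, p.2.1⟫_𝕜 := by fun_prop
  have h2 : Continuous fun p : (V × 𝕜) × (V × 𝕜) => conj p.1.2 * p.2.2 :=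
    (RCLike.continuous_conj.comp (continuous_snd.comp continuous_fst)).mul
      (continuous_snd.comp continuous_snd)
  exact h1.sub h2

theorem ap_hf (g : U 𝕜 V) (x y : V × 𝕜) : hf (ap g x) (ap g y) = hf x y := g.2 x y

theorem ap_add (g : U 𝕜 V) (x y : V × 𝕜) : ap g (x + y) = ap g x + ap g y := map_add _ _ _

theorem ap_smul (g : U 𝕜 V) (c : 𝕜) (x : V × 𝕜) : ap g (c • x) = c • ap g x := map_smul _ _ _

theorem ap_mul (g h : U 𝕜 V) (x : V × 𝕜) : ap (g * h) x = ap g (ap h x) := rfl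

theorem ap_one (x : V × 𝕜) : ap (1 : U 𝕜 V) x = x := rfl

theorem ap_inv_ap (g : U 𝕜 V) (x : V × 𝕜) : ap g⁻¹ (ap g x) = x := by
  rw [← ap_mul, inv_mul_cancel, ap_one]

theorem ap_ap_inv (g : U 𝕜 V) (x : V × 𝕜) : ap g (ap g⁻¹ x) = x := by
  rw [← ap_mul, mul_inv_cancel, ap_one]

theorem ext' {g h : U 𝕜 V} (hx : ∀ x, ap g x = ap h x) : g = h := by
  apply Subtype.ext
  apply Units.ext
  ext x
  · exact congrArg Prod.fst (hx (x, 0))
  · exact congrArg Prod.snd (hx (x, 0))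
  · exact congrArg Prod.fst (hx (0, 1))
  · exact congrArg Prod.snd (hx (0, 1))

variable [FiniteDimensional 𝕜 V]

/-- a linear map which preserves the form is an element of the unitary group -/
theorem exists_mk (f : (V × 𝕜) →ₗ[𝕜] (V × 𝕜)) (hp : ∀ x y, hf (f x) (f y) = hf x y) :
    ∃ g : U 𝕜 V, ∀ x, ap g x = f x := by
  have hinj : Function.Injective f := by
    rw [← LinearMap.ker_eq_bot, LinearMap.ker_eq_bot']
    intro x hx
    apply hf_nondeg (𝕜 := 𝕜)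
    intro y
    rw [← hp, hx]
    simp [hf]
  let e := (LinearEquiv.ofInjectiveEndo f hinj).toContinuousLinearEquiv
  refine ⟨⟨e.toUnit, ?_⟩, fun x => rfl⟩
  intro x y
  exact hp x y

/-- the element with a given action -/
noncomputable def mk (f : (V × 𝕜) →ₗ[𝕜] (V × 𝕜)) (hp : ∀ x y, hf (f x) (f y) = hf x y) : U 𝕜 V :=
  Classical.choose (exists_mk f hp)

theorem ap_mk (f : (V × 𝕜) →ₗ[𝕜] (V × 𝕜)) (hp : ∀ x y, hf (f x) (f y) = hf x y) (x : V × 𝕜) :
    ap (mk f hp) x = f x := Classical.choose_spec (exists_mk f hp) x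

theorem emb : IsEmbedding fun g : U 𝕜 V =>
    ((g : ((V × 𝕜) →L[𝕜] (V × 𝕜))ˣ) : (V × 𝕜) →L[𝕜] (V × 𝕜)) := by
  have : CompleteSpace (V × 𝕜) := FiniteDimensional.complete 𝕜 _
  exact Units.isOpenEmbedding_val.isEmbedding.comp IsEmbedding.subtypeVal

theorem tendsto_iff {ι : Type} {l : Filter ι} {f : ι → U 𝕜 V} {g : U 𝕜 V}
    (h : ∀ x, Tendsto (fun i => ap (f i) x) l (𝓝 (ap g x))) : Tendsto f l (𝓝 g) := by
  rw [emb.isInducing.tendsto_nhds_iff]
  exact tendsto_of_pointwise h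

theorem cont_iff {X : Type} [TopologicalSpace X] {f : X → U 𝕜 V}
    (h : ∀ x, Continuous fun i => ap (f i) x) : Continuous f := by
  rw [continuous_iff_continuousAt]
  intro i
  exact tendsto_iff fun x => (h x).continuousAt

theorem ap_cont (x : V × 𝕜) : Continuous fun g : U 𝕜 V => ap g x := by
  have h1 := (emb (𝕜 := 𝕜) (V := V)).continuous
  exact h1.clm_apply continuous_const

/-! ### the light cone -/

/-- the vector `(e, 1)` -/
def ep (e : V) : V × 𝕜 := (e, 1)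

/-- the vector `(e, -1)` -/
def em (e : V) : V × 𝕜 := (e, -1)

/-- the vector `(0, 1)` -/
def f0 : V × 𝕜 := (0, 1)

variable {e : V} (he : ‖e‖ = 1)

section
include he
theorem hf_pp : hf (ep e) (ep e : V × 𝕜) = 0 := by
  simp [hf, ep, inner_self_eq_norm_sq_to_K, he]

theorem hf_mm : hf (em e) (em e : V × 𝕜) = 0 := by
  simp [hf, em, inner_self_eq_norm_sq_to_K, he]

theorem hf_pm : hf (ep e) (em e : V × 𝕜) = 2 := by
  simp [hf, ep, em, inner_self_eq_norm_sq_to_K, he]; norm_num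

theorem hf_mp : hf (em e) (ep e : V × 𝕜) = 2 := by
  simp [hf, ep, em, inner_self_eq_norm_sq_to_K, he]; norm_num
end

theorem f0_eq (e : V) : (f0 : V × 𝕜) = (1 / 2 : 𝕜) • ep e - (1 / 2 : 𝕜) • em e := by
  ext
  · simp [f0, ep, em]
  · simp [f0, ep, em]; norm_num

/-- the coordinate of `(e, 1)` -/
noncomputable def al (e : V) (x : V × 𝕜) : 𝕜 := hf (em e) x / 2

/-- the coordinate of `(e, -1)` -/
noncomputable def be (e : V) (x : V × 𝕜) : 𝕜 := hf (ep e) x / 2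

/-- the component perpendicular to `e` in `V` -/
noncomputable def pr (e : V) (x : V × 𝕜) : V × 𝕜 := x - al e x • ep e - be e x • em e

theorem decomp (e : V) (x : V × 𝕜) : x = al e x • ep e + be e x • em e + pr e x := by
  unfold pr; abel

section
include he
theorem al_p : al e (ep e : V × 𝕜) = 1 := by
  unfold al; rw [hf_mp he]; norm_num
theorem al_m : al e (em e : V × 𝕜) = 0 := by
  unfold al; rw [hf_mm he]; norm_num
theorem be_p : be e (ep e : V × 𝕜) = 0 := by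
  unfold be; rw [hf_pp he]; norm_num
theorem be_m : be e (em e : V × 𝕜) = 1 := by
  unfold be; rw [hf_pm he]; norm_num
end

theorem al_add (x y : V × 𝕜) : al e (x + y) = al e x + al e y := by
  unfold al; rw [hf_add_right]; ring
theorem be_add (x y : V × 𝕜) : be e (x + y) = be e x + be e y := by
  unfold be; rw [hf_add_right]; ring
theorem al_smul (c : 𝕜) (x : V × 𝕜) : al e (c • x) = c * al e x := by
  unfold al; rw [hf_smul_right]; ring
theorem be_smul (c : 𝕜) (x : V × 𝕜) : be e (c • x) = c * be e x := by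
  unfold be; rw [hf_smul_right]; ring
theorem pr_add (x y : V × 𝕜) : pr e (x + y) = pr e x + pr e y := by
  unfold pr; rw [al_add, be_add, add_smul, add_smul]; abel
theorem pr_smul (c : 𝕜) (x : V × 𝕜) : pr e (c • x) = c • pr e x := by
  unfold pr; rw [al_smul, be_smul, smul_sub, smul_sub, mul_smul, mul_smul]

section
include he
theorem pr_p : pr e (ep e : V × 𝕜) = 0 := by
  unfold pr; rw [al_p he, be_p he]; simp
theorem pr_m : pr e (em e : V × 𝕜) = 0 := by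
  unfold pr; rw [al_m he, be_m he]; simp
theorem al_pr (x : V × 𝕜) : al e (pr e x) = 0 := by
  have h := congrArg (al e) (decomp e x)
  rw [al_add, al_add, al_smul, al_smul, al_p he, al_m he] at h
  linear_combination -h
theorem be_pr (x : V × 𝕜) : be e (pr e x) = 0 := by
  have h := congrArg (be e) (decomp e x)
  rw [be_add, be_add, be_smul, be_smul, be_p he, be_m he] at h
  linear_combination -h
theorem pr_pr (x : V × 𝕜) : pr e (pr e x) = pr e x := by
  conv_lhs => unfold pr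
  change pr e x - al e (pr e x) • ep e - be e (pr e x) • em e = pr e x
  rw [al_pr he, be_pr he]; simp

/-- the form in coordinates -/
theorem hf_coord (x y : V × 𝕜) : hf x y =
    2 * conj (al e x) * be e y + 2 * conj (be e x) * al e y + hf (pr e x) (pr e y) := by
  have h1 : ∀ z : V × 𝕜, hf (ep e) (pr e z) = 0 := fun z => by
    have := be_pr he z; unfold be at this; simpa using this
  have h2 : ∀ z : V × 𝕜, hf (em e) (pr e z) = 0 := fun z => by
    have := al_pr he z; unfold al at this; simpa using this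
  have h3 : ∀ z : V × 𝕜, hf (pr e z) (ep e) = 0 := fun z => by
    rw [← hf_conj, h1, map_zero]
  have h4 : ∀ z : V × 𝕜, hf (pr e z) (em e) = 0 := fun z => by
    rw [← hf_conj, h2, map_zero]
  conv_lhs => rw [decomp e x, decomp e y]
  simp only [hf_add_left, hf_add_right, hf_smul_left, hf_smul_right, hf_pp he, hf_mm he, hf_pm he,
    hf_mp he, h1, h2, h3, h4]
  ring
end

/-! ### linear maps in coordinates -/

/-- the map with the diagonal entries `l`, `m` and the block of `A` -/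
noncomputable def dg (e : V) (l m : 𝕜) (A : (V × 𝕜) →ₗ[𝕜] (V × 𝕜)) :
    (V × 𝕜) →ₗ[𝕜] (V × 𝕜) where
  toFun x := (l * al e x) • ep e + (m * be e x) • em e + pr e (A (pr e x))
  map_add' x y := by
    rw [al_add, be_add, pr_add, map_add, pr_add, mul_add, mul_add, add_smul, add_smul]; abel
  map_smul' c x := by
    rw [al_smul, be_smul, pr_smul, map_smul, pr_smul, RingHom.id_apply, smul_add, smul_add,
      smul_smul, smul_smul]
    congr 3 <;> ring

theorem dg_apply (l m : 𝕜) (A : (V × 𝕜) →ₗ[𝕜] (V × 𝕜)) (x : V × 𝕜) :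
    dg e l m A x = (l * al e x) • ep e + (m * be e x) • em e + pr e (A (pr e x)) := rfl

section
include he
theorem al_dg (l m : 𝕜) (A : (V × 𝕜) →ₗ[𝕜] (V × 𝕜)) (x : V × 𝕜) :
    al e (dg e l m A x) = l * al e x := by
  rw [dg_apply, al_add, al_add, al_smul, al_smul, al_p he, al_m he, al_pr he]; ring
theorem be_dg (l m : 𝕜) (A : (V × 𝕜) →ₗ[𝕜] (V × 𝕜)) (x : V × 𝕜) :
    be e (dg e l m A x) = m * be e x := by
  rw [dg_apply, be_add, be_add, be_smul, be_smul, be_p he, be_m he, be_pr he]; ring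
theorem pr_dg (l m : 𝕜) (A : (V × 𝕜) →ₗ[𝕜] (V × 𝕜)) (x : V × 𝕜) :
    pr e (dg e l m A x) = pr e (A (pr e x)) := by
  rw [dg_apply, pr_add, pr_add, pr_smul, pr_smul, pr_p he, pr_m he, pr_pr he]; simp

theorem dg_hf {l m : 𝕜} (h1 : conj l * m = 1) {A : (V × 𝕜) →ₗ[𝕜] (V × 𝕜)}
    (hA : ∀ x y, hf (pr e (A (pr e x))) (pr e (A (pr e y))) = hf (pr e x) (pr e y))
    (x y : V × 𝕜) : hf (dg e l m A x) (dg e l m A y) = hf x y := by
  have h2 : conj m * l = 1 := by
    have := congrArg conj h1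
    rw [map_mul, RCLike.conj_conj, map_one] at this
    rw [mul_comm]; exact this
  rw [hf_coord he, hf_coord he x y, al_dg he, al_dg he, be_dg he, be_dg he, pr_dg he, pr_dg he, hA,
    map_mul, map_mul]
  linear_combination (2 * conj (al e x) * be e y) * h1 + (2 * conj (be e x) * al e y) * h2
end

theorem exp_mul (t : ℝ) : conj ((Real.exp t : ℝ) : 𝕜) * ((Real.exp (-t) : ℝ) : 𝕜) = 1 := by
  rw [RCLike.conj_ofReal, ← RCLike.ofReal_mul, ← Real.exp_add, add_neg_cancel, Real.exp_zero,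
    RCLike.ofReal_one]

/-- the boost -/
noncomputable def bst (he : ‖e‖ = 1) (t : ℝ) : U 𝕜 V :=
  mk (dg e ((Real.exp t : ℝ) : 𝕜) ((Real.exp (-t) : ℝ) : 𝕜) LinearMap.id)
    (dg_hf he (exp_mul t) (fun x y => by
      rw [LinearMap.id_apply, LinearMap.id_apply, pr_pr he, pr_pr he]))

theorem ap_bst (t : ℝ) (x : V × 𝕜) : ap (bst he t) x =
    (((Real.exp t : ℝ) : 𝕜) * al e x) • ep e + (((Real.exp (-t) : ℝ) : 𝕜) * be e x) • em e +
      pr e x := by
  unfold bst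
  rw [ap_mk, dg_apply, LinearMap.id_apply, pr_pr he]

theorem al_bst (t : ℝ) (x : V × 𝕜) :
    al e (ap (bst he t) x) = ((Real.exp t : ℝ) : 𝕜) * al e x := by
  rw [ap_bst, al_add, al_add, al_smul, al_smul, al_p he, al_m he, al_pr he]; ring
theorem be_bst (t : ℝ) (x : V × 𝕜) :
    be e (ap (bst he t) x) = ((Real.exp (-t) : ℝ) : 𝕜) * be e x := by
  rw [ap_bst, be_add, be_add, be_smul, be_smul, be_p he, be_m he, be_pr he]; ring
theorem pr_bst (t : ℝ) (x : V × 𝕜) : pr e (ap (bst he t) x) = pr e x := by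
  rw [ap_bst, pr_add, pr_add, pr_smul, pr_smul, pr_p he, pr_m he, pr_pr he]; simp

theorem bst_add (s t : ℝ) : (bst he (s + t) : U 𝕜 V) = bst he s * bst he t := by
  apply ext'
  intro x
  rw [ap_mul, ap_bst he s, al_bst, be_bst, pr_bst, ap_bst]
  have h1 : ((Real.exp (s + t) : ℝ) : 𝕜) = ((Real.exp s : ℝ) : 𝕜) * ((Real.exp t : ℝ) : 𝕜) := by
    rw [Real.exp_add, RCLike.ofReal_mul]
  have h2 : ((Real.exp (-(s + t)) : ℝ) : 𝕜) =
      ((Real.exp (-s) : ℝ) : 𝕜) * ((Real.exp (-t) : ℝ) : 𝕜) := by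
    rw [neg_add, Real.exp_add, RCLike.ofReal_mul]
  rw [h1, h2, mul_assoc, mul_assoc]

theorem bst_cont : Continuous fun t : ℝ => (bst he t : U 𝕜 V) := by
  apply cont_iff
  intro x
  have h1 : (fun t : ℝ => ap (bst he t) x) = fun t : ℝ =>
      (((Real.exp t : ℝ) : 𝕜) * al e x) • ep e + (((Real.exp (-t) : ℝ) : 𝕜) * be e x) • em e +
      pr e x := funext fun t => ap_bst he t x
  rw [h1]
  have h2 : Continuous fun t : ℝ => ((Real.exp t : ℝ) : 𝕜) :=
    RCLike.continuous_ofReal.comp Real.continuous_exp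
  have h3 : Continuous fun t : ℝ => ((Real.exp (-t) : ℝ) : 𝕜) :=
    RCLike.continuous_ofReal.comp (Real.continuous_exp.comp continuous_neg)
  fun_prop

theorem bst_f0 (t : ℝ) : ap (bst he t) (f0 : V × 𝕜) =
    (((Real.sinh t : ℝ) : 𝕜) • e, ((Real.cosh t : ℝ) : 𝕜)) := by
  have h1 : al e (f0 : V × 𝕜) = 1 / 2 := by
    unfold al f0 em hf; simp
  have h2 : be e (f0 : V × 𝕜) = -(1 / 2) := by
    unfold be f0 ep hf; simp; ring
  have h3 : pr e (f0 : V × 𝕜) = 0 := by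
    unfold pr; rw [h1, h2, f0_eq e]; simp
  rw [ap_bst, h1, h2, h3, add_zero]
  have h4 : ((Real.sinh t : ℝ) : 𝕜) = ((Real.exp t : ℝ) : 𝕜) / 2 - ((Real.exp (-t) : ℝ) : 𝕜) / 2 := by
    rw [Real.sinh_eq]; push_cast; ring
  have h5 : ((Real.cosh t : ℝ) : 𝕜) = ((Real.exp t : ℝ) : 𝕜) / 2 + ((Real.exp (-t) : ℝ) : 𝕜) / 2 := by
    rw [Real.cosh_eq]; push_cast; ring
  rw [h4, h5]
  apply Prod.ext
  · show (((Real.exp t : ℝ) : 𝕜) * (1 / 2)) • e + (((Real.exp (-t) : ℝ) : 𝕜) * -(1 / 2)) • e = _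
    rw [← add_smul]; congr 1; ring
  · show (((Real.exp t : ℝ) : 𝕜) * (1 / 2)) • (1 : 𝕜) +
      (((Real.exp (-t) : ℝ) : 𝕜) * -(1 / 2)) • (-1 : 𝕜) = _
    rw [smul_eq_mul, smul_eq_mul]; ring

/-! ### the Weyl element -/

theorem wl_hf (x y : V × 𝕜) :
    hf ((LinearMap.prodMap LinearMap.id (-LinearMap.id) : (V × 𝕜) →ₗ[𝕜] (V × 𝕜)) x)
      ((LinearMap.prodMap LinearMap.id (-LinearMap.id) : (V × 𝕜) →ₗ[𝕜] (V × 𝕜)) y) = hf x y := by
  simp [hf]

variable (𝕜 V) in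
/-- the reflection of the last coordinate -/
noncomputable def wl : U 𝕜 V := mk (LinearMap.prodMap LinearMap.id (-LinearMap.id)) wl_hf

theorem ap_wl (x : V × 𝕜) : ap (wl 𝕜 V) x = (x.1, -x.2) :=
  ap_mk (LinearMap.prodMap LinearMap.id (-LinearMap.id)) wl_hf x

theorem wl_ep : ap (wl 𝕜 V) (ep e) = em e := by rw [ap_wl]; rfl
theorem wl_em : ap (wl 𝕜 V) (em e) = ep e := by
  rw [ap_wl]; simp [em, ep]

theorem al_wl (x : V × 𝕜) : al e (ap (wl 𝕜 V) x) = be e x := by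
  unfold al be
  rw [← wl_ep, ap_hf]
theorem be_wl (x : V × 𝕜) : be e (ap (wl 𝕜 V) x) = al e x := by
  unfold al be
  rw [← wl_em, ap_hf]

theorem pr_snd (x : V × 𝕜) : (pr e x).2 = 0 := by
  show x.2 - al e x * 1 - be e x * (-1) = 0
  unfold al be hf ep em
  simp only [map_neg, map_one]
  ring

theorem wl_pr (x : V × 𝕜) : ap (wl 𝕜 V) (pr e x) = pr e x := by
  rw [ap_wl, pr_snd, neg_zero]
  exact Prod.ext rfl (pr_snd x).symm

include he in
theorem pr_wl (x : V × 𝕜) : pr e (ap (wl 𝕜 V) x) = pr e x := by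
  conv_lhs => rw [decomp e x, ap_add, ap_add, ap_smul, ap_smul, wl_ep, wl_em, wl_pr, pr_add, pr_add,
    pr_smul, pr_smul, pr_p he, pr_m he, pr_pr he]
  simp

theorem weyl (t : ℝ) : (wl 𝕜 V)⁻¹ * bst he t * wl 𝕜 V = bst he (-t) := by
  rw [mul_assoc, inv_mul_eq_iff_eq_mul]
  apply ext'
  intro x
  rw [ap_mul, ap_mul, ap_bst, al_wl, be_wl, pr_wl he, ap_bst, ap_add, ap_add, ap_smul, ap_smul,
    wl_ep, wl_em, wl_pr, neg_neg]
  abel

/-! ### unipotent elements -/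

/-- the unipotent element -/
noncomputable def un (e : V) (c : 𝕜) (z : V × 𝕜) : (V × 𝕜) →ₗ[𝕜] (V × 𝕜) where
  toFun x := x + be e x • (c • ep e + z) - (hf z x / 2) • ep e
  map_add' x y := by
    rw [be_add, hf_add_right, add_div, add_smul, add_smul]; abel
  map_smul' r x := by
    rw [be_smul, hf_smul_right, RingHom.id_apply, smul_sub, smul_add r, smul_smul, smul_smul,
      mul_div_assoc]

theorem un_apply (c : 𝕜) (z x : V × 𝕜) :
    un e c z x = x + be e x • (c • ep e + z) - (hf z x / 2) • ep e := rfl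

include he in
theorem un_hf {c : 𝕜} {z : V × 𝕜} (h1 : be e z = 0) (h2 : hf z z + 2 * (c + conj c) = 0)
    (x y : V × 𝕜) : hf (un e c z x) (un e c z y) = hf x y := by
  have h3 : hf (ep e) z = 0 := by unfold be at h1; simpa using h1
  have h4 : hf z (ep e) = 0 := by rw [← hf_conj, h3, map_zero]
  have h5 : ∀ u : V × 𝕜, hf (ep e) u = 2 * be e u := fun u => by unfold be; ring
  have h6 : ∀ u : V × 𝕜, hf u (ep e) = 2 * conj (be e u) := fun u => by
    rw [← hf_conj, h5, map_mul, map_ofNat]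
  have h7 : ∀ u : V × 𝕜, hf u z = conj (hf z u) := fun u => by rw [hf_conj]
  have h8 : un e c z x = x + (be e x • z + (be e x * c - hf z x / 2) • ep e) := by
    rw [un_apply, smul_add, smul_smul, sub_smul]; abel
  have h9 : un e c z y = y + (be e y • z + (be e y * c - hf z y / 2) • ep e) := by
    rw [un_apply, smul_add, smul_smul, sub_smul]; abel
  rw [h8, h9]
  simp only [hf_add_left, hf_add_right, hf_smul_left, hf_smul_right, h3, h4, h5, h6, h7 x,
    h1, be_add, be_smul, be_p he, map_add, map_sub, map_mul, map_div₀, map_ofNat, map_zero,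
    mul_zero, add_zero]
  linear_combination (conj (be e x) * be e y) * h2

/-! ### the subgroups -/

/-- the stabilizer of a line -/
def stab (x0 : V × 𝕜) : Subgroup (U 𝕜 V) where
  carrier := {g | ∃ c : 𝕜, ap g x0 = c • x0}
  one_mem' := ⟨1, by rw [ap_one, one_smul]⟩
  mul_mem' := by
    rintro g h ⟨c, hc⟩ ⟨d, hd⟩
    exact ⟨d * c, by rw [ap_mul, hd, ap_smul, hc, smul_smul]⟩
  inv_mem' := by
    rintro g ⟨c, hc⟩
    by_cases h0 : c = 0
    · refine ⟨0, ?_⟩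
      rw [h0, zero_smul] at hc
      have h1 := ap_inv_ap g x0
      rw [hc] at h1
      have h2 : x0 = 0 := by
        rw [← h1]
        exact map_zero _
      rw [h2, smul_zero]
      exact map_zero _
    · refine ⟨c⁻¹, ?_⟩
      have h1 := ap_inv_ap g x0
      rw [hc, ap_smul] at h1
      rw [eq_inv_smul_iff₀ h0]
      exact h1

theorem mem_stab {x0 : V × 𝕜} {g : U 𝕜 V} : g ∈ stab x0 ↔ ∃ c : 𝕜, ap g x0 = c • x0 := Iff.rfl

theorem hf_f0 (x : V × 𝕜) : hf f0 x = - x.2 := by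
  simp [hf, f0]

/-- the set of operators of the maximal compact subgroup -/
def Kset (𝕜 V : Type) [RCLike 𝕜] [NormedAddCommGroup V] [InnerProductSpace 𝕜 V] :
    Set ((V × 𝕜) →L[𝕜] (V × 𝕜)) :=
  {T | (∀ x y, hf (T x) (T y) = hf x y) ∧ (T f0).1 = 0}

theorem Kset_norm {T : (V × 𝕜) →L[𝕜] (V × 𝕜)} (hT : T ∈ Kset 𝕜 V) (x : V × 𝕜) : ‖T x‖ = ‖x‖ := by
  obtain ⟨h1, h2⟩ := hT
  set c := (T f0).2 with hc
  have h3 : T f0 = c • f0 := by
    apply Prod.ext
    · rw [h2]; simp [f0]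
    · simp [f0, hc]
  have h4 : conj c * c = 1 := by
    have h := h1 f0 f0
    rw [h3, hf_smul_left, hf_smul_right, hf_f0] at h
    simp [f0] at h
    rw [← h]
  have h5 : ‖c‖ = 1 := by
    rw [RCLike.conj_mul] at h4
    have h6 : ‖c‖ ^ 2 = 1 := by exact_mod_cast h4
    nlinarith [norm_nonneg c]
  have hc0 : conj c ≠ 0 := left_ne_zero_of_mul_eq_one h4
  have h6 : (T (x.1, 0)).2 = 0 := by
    have h := h1 f0 (x.1, 0)
    rw [h3, hf_smul_left, hf_f0, hf_f0] at h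
    simpa [hc0] using h
  have h7 : ‖(T (x.1, 0)).1‖ = ‖x.1‖ := by
    have h := h1 (x.1, 0) (x.1, 0)
    unfold hf at h
    rw [h6] at h
    simp only [map_zero, mul_zero, sub_zero] at h
    rw [inner_self_eq_norm_sq_to_K, inner_self_eq_norm_sq_to_K] at h
    have h8 : ‖(T (x.1, 0)).1‖ ^ 2 = ‖x.1‖ ^ 2 := by exact_mod_cast h
    exact (pow_left_inj₀ (norm_nonneg _) (norm_nonneg _) two_ne_zero).1 h8
  have h8 : x = (x.1, 0) + x.2 • f0 := by
    apply Prod.ext <;> simp [f0]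
  have h9 : T x = ((T (x.1, 0)).1, x.2 * c) := by
    conv_lhs => rw [h8, map_add, map_smul, h3]
    apply Prod.ext
    · simp [f0]
    · simp [f0, h6]
  rw [h9, Prod.norm_def, Prod.norm_def]
  simp only [norm_mul, h5, mul_one, h7]

theorem Kset_compact : IsCompact (Kset 𝕜 V) := by
  have : ProperSpace ((V × 𝕜) →L[𝕜] (V × 𝕜)) := FiniteDimensional.proper 𝕜 _
  apply Metric.isCompact_of_isClosed_isBounded
  · have h1 : Kset 𝕜 V = (⋂ x : V × 𝕜, ⋂ y : V × 𝕜, {T | hf (T x) (T y) = hf x y}) ∩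
        {T | (T f0).1 = 0} := by
      ext T; simp [Kset]
    rw [h1]
    have h2 : ∀ x : V × 𝕜, Continuous fun T : (V × 𝕜) →L[𝕜] (V × 𝕜) => T x := fun x => by
      fun_prop
    refine IsClosed.inter (isClosed_iInter fun x => isClosed_iInter fun y => ?_) ?_
    · exact isClosed_eq (hf_cont.comp ((h2 x).prodMk (h2 y))) continuous_const
    · exact isClosed_eq (continuous_fst.comp (h2 f0)) continuous_const
  · refine (Metric.isBounded_closedBall (x := (0 : (V × 𝕜) →L[𝕜] (V × 𝕜))) (r := 1)).subset ?_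
    intro T hT
    rw [mem_closedBall_zero_iff]
    refine ContinuousLinearMap.opNorm_le_bound _ zero_le_one fun x => ?_
    rw [Kset_norm hT, one_mul]

theorem K_compact : IsCompact (stab (f0 : V × 𝕜) : Set (U 𝕜 V)) := by
  rw [emb.isCompact_iff]
  have h1 : (fun g : U 𝕜 V => ((g : ((V × 𝕜) →L[𝕜] (V × 𝕜))ˣ) : (V × 𝕜) →L[𝕜] (V × 𝕜))) ''
      (stab (f0 : V × 𝕜) : Set (U 𝕜 V)) = Kset 𝕜 V := by
    ext T
    constructor
    · rintro ⟨g, ⟨c, hc⟩, rfl⟩
      refine ⟨g.2, ?_⟩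
      show (ap g f0).1 = 0
      rw [hc]; simp [f0]
    · rintro ⟨h1, h2⟩
      refine ⟨mk (T : (V × 𝕜) →ₗ[𝕜] (V × 𝕜)) h1, ⟨(T f0).2, ?_⟩, ?_⟩
      · rw [ap_mk]
        apply Prod.ext
        · show (T f0).1 = _
          rw [h2]; simp [f0]
        · show (T f0).2 = _
          simp [f0]
      · refine ContinuousLinearMap.ext fun x => ?_
        exact ap_mk (T : (V × 𝕜) →ₗ[𝕜] (V × 𝕜)) h1 x
  rw [h1]
  exact Kset_compact

/-! ### decompositions -/

include he in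
theorem exists_isometry (x : V) : ∃ L : V →ₗᵢ[𝕜] V, L (((‖x‖ : ℝ) : 𝕜) • e) = x := by
  by_cases hx : x = 0
  · exact ⟨LinearIsometry.id, by simp [hx]⟩
  have hx' : ‖x‖ ≠ 0 := norm_ne_zero_iff.2 hx
  set y : V := ((‖x‖⁻¹ : ℝ) : 𝕜) • x with hy
  have hy1 : ‖y‖ = 1 := by
    rw [hy, norm_smul, RCLike.norm_ofReal, abs_inv, abs_norm, inv_mul_cancel₀ hx']
  let e1 := LinearIsometryEquiv.toSpanUnitSingleton (𝕜 := 𝕜) e he
  let e2 := LinearIsometryEquiv.toSpanUnitSingleton (𝕜 := 𝕜) y hy1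
  let L0 : (Submodule.span 𝕜 {e}) →ₗᵢ[𝕜] V :=
    (Submodule.span 𝕜 {y}).subtypeₗᵢ.comp (e1.symm.trans e2).toLinearIsometry
  refine ⟨L0.extend, ?_⟩
  have h1 : L0.extend e = y := by
    have h2 := LinearIsometry.extend_apply L0 ⟨e, Submodule.mem_span_singleton_self e⟩
    rw [show ((⟨e, Submodule.mem_span_singleton_self e⟩ : Submodule.span 𝕜 {e}) : V) = e from rfl]
      at h2
    rw [h2]
    have h3 : e1.symm ⟨e, Submodule.mem_span_singleton_self e⟩ = 1 := by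
      rw [LinearIsometryEquiv.symm_apply_eq]
      apply Subtype.ext
      show e = (1 : 𝕜) • e
      rw [one_smul]
    show ((e2 (e1.symm ⟨e, Submodule.mem_span_singleton_self e⟩) : Submodule.span 𝕜 {y}) : V) = y
    rw [h3]
    show (1 : 𝕜) • y = y
    rw [one_smul]
  rw [map_smul, h1, hy, smul_smul, ← RCLike.ofReal_mul, mul_inv_cancel₀ hx', RCLike.ofReal_one,
    one_smul]

/-- an element of the maximal compact subgroup -/
theorem exists_k (L : V →ₗᵢ[𝕜] V) {c : 𝕜} (hc : ‖c‖ = 1) :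
    ∃ k ∈ stab (f0 : V × 𝕜), ∀ x, ap k x = (L x.1, c * x.2) := by
  have h1 : conj c * c = 1 := by
    rw [RCLike.conj_mul, hc]; simp
  let T : (V × 𝕜) →ₗ[𝕜] (V × 𝕜) := LinearMap.prodMap L.toLinearMap (c • LinearMap.id)
  have hT : ∀ x, T x = (L x.1, c * x.2) := fun x => rfl
  have hp : ∀ x y, hf (T x) (T y) = hf x y := by
    intro x y
    rw [hT, hT]
    show ⟪L x.1, L y.1⟫_𝕜 - conj (c * x.2) * (c * y.2) = ⟪x.1, y.1⟫_𝕜 - conj x.2 * y.2
    rw [L.inner_map_map, map_mul]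
    linear_combination (-(conj x.2 * y.2)) * h1
  refine ⟨mk T hp, ⟨c, ?_⟩, fun x => ap_mk T hp x⟩
  rw [ap_mk, hT]
  apply Prod.ext
  · simp [f0]
  · simp [f0]

theorem hf_self (x : V × 𝕜) : hf x x = ((‖x.1‖ ^ 2 - ‖x.2‖ ^ 2 : ℝ) : 𝕜) := by
  unfold hf
  rw [inner_self_eq_norm_sq_to_K, RCLike.conj_mul]
  push_cast
  ring

/-- a vector is moved to the plane of the boosts -/
theorem exists_k_of (x : V × 𝕜) (hx : x.2 ≠ 0) : ∃ k ∈ stab (f0 : V × 𝕜),
    ap k (((‖x.1‖ : ℝ) : 𝕜) • e, ((‖x.2‖ : ℝ) : 𝕜)) = x ∨ ‖e‖ ≠ 1 := by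
  by_cases he : ‖e‖ = 1
  swap
  · exact ⟨1, one_mem _, Or.inr he⟩
  obtain ⟨L, hL⟩ := exists_isometry (𝕜 := 𝕜) he x.1
  have hx' : ((‖x.2‖ : ℝ) : 𝕜) ≠ 0 := by
    rw [Ne, RCLike.ofReal_eq_zero]; exact norm_ne_zero_iff.2 hx
  have hc : ‖x.2 / ((‖x.2‖ : ℝ) : 𝕜)‖ = 1 := by
    rw [norm_div, RCLike.norm_ofReal, abs_norm, div_self (norm_ne_zero_iff.2 hx)]
  obtain ⟨k, hk, hk'⟩ := exists_k L hc
  refine ⟨k, hk, Or.inl ?_⟩
  rw [hk']
  apply Prod.ext
  · exact hL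
  · show x.2 / ((‖x.2‖ : ℝ) : 𝕜) * ((‖x.2‖ : ℝ) : 𝕜) = x.2
    field_simp

theorem cartan (g : U 𝕜 V) : ∃ k ∈ stab (f0 : V × 𝕜), ∃ l ∈ stab (f0 : V × 𝕜), ∃ t, 0 ≤ t ∧
    g = k * bst he t * l := by
  set x := ap g (f0 : V × 𝕜) with hx
  have h1 : ‖x.1‖ ^ 2 - ‖x.2‖ ^ 2 = -1 := by
    have h := ap_hf g (f0 : V × 𝕜) f0
    rw [← hx, hf_self, hf_self] at h
    have h' : ‖x.1‖ ^ 2 - ‖x.2‖ ^ 2 = ‖(f0 : V × 𝕜).1‖ ^ 2 - ‖(f0 : V × 𝕜).2‖ ^ 2 := by
      exact_mod_cast h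
    rw [h']; simp [f0]
  have hx2 : x.2 ≠ 0 := by
    intro h
    rw [h, norm_zero] at h1
    nlinarith [sq_nonneg ‖x.1‖]
  obtain ⟨k, hk, hk' | h⟩ := exists_k_of (e := e) x hx2
  swap
  · exact absurd he h
  set t := Real.arsinh ‖x.1‖ with ht
  have ht0 : 0 ≤ t := Real.arsinh_nonneg_iff.2 (norm_nonneg _)
  have hs : Real.sinh t = ‖x.1‖ := Real.sinh_arsinh _
  have hch : Real.cosh t = ‖x.2‖ := by
    have h2 := Real.cosh_sq t
    rw [hs] at h2
    have h3 : Real.cosh t ^ 2 = ‖x.2‖ ^ 2 := by rw [h2]; linarith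
    exact (pow_left_inj₀ (Real.cosh_pos t).le (norm_nonneg _) two_ne_zero).1 h3
  refine ⟨k, hk, (k * bst he t)⁻¹ * g, ⟨1, ?_⟩, t, ht0, by group⟩
  have h2 : ap (k * bst he t) (f0 : V × 𝕜) = ap g f0 := by
    rw [ap_mul, bst_f0, hs, hch, hk', hx]
  rw [ap_mul, ← h2, ap_inv_ap, one_smul]

include he in
theorem iwasawa (g : U 𝕜 V) : ∃ k ∈ stab (f0 : V × 𝕜), ∃ p ∈ stab (ep e : V × 𝕜), g = k * p := by
  set x := ap g (ep e : V × 𝕜) with hx
  have h1 : ‖x.1‖ ^ 2 - ‖x.2‖ ^ 2 = 0 := by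
    have h := ap_hf g (ep e : V × 𝕜) (ep e)
    rw [← hx, hf_self, hf_pp he] at h
    exact_mod_cast h
  have h2 : ‖x.1‖ = ‖x.2‖ :=
    (pow_left_inj₀ (norm_nonneg _) (norm_nonneg _) two_ne_zero).1 (by linarith)
  have hx2 : x.2 ≠ 0 := by
    intro h
    rw [h, norm_zero] at h2
    have h3 : x = 0 := Prod.ext (norm_eq_zero.1 h2) h
    have h4 : (ep e : V × 𝕜) = 0 := by
      rw [← ap_inv_ap g (ep e), ← hx, h3]
      exact map_zero _
    have h5 := congrArg Prod.snd h4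
    simp [ep] at h5
  obtain ⟨k, hk, hk' | h⟩ := exists_k_of (e := e) x hx2
  swap
  · exact absurd he h
  refine ⟨k, hk, k⁻¹ * g, ⟨((‖x.2‖ : ℝ) : 𝕜), ?_⟩, by group⟩
  have h3 : ap k (((‖x.2‖ : ℝ) : 𝕜) • (ep e)) = x := by
    have h4 : (((‖x.2‖ : ℝ) : 𝕜) • (ep e : V × 𝕜)) =
        (((‖x.1‖ : ℝ) : 𝕜) • e, ((‖x.2‖ : ℝ) : 𝕜)) := by
      rw [h2]
      apply Prod.ext
      · rfl
      · simp [ep]
    rw [h4, hk']
  rw [ap_mul, ← hx]
  calc ap k⁻¹ x = ap k⁻¹ (ap k (((‖x.2‖ : ℝ) : 𝕜) • (ep e))) := by rw [h3]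
    _ = _ := ap_inv_ap _ _

include he in
theorem eq_of_be_zero {u : V × 𝕜} (h1 : hf u u = 0) (h2 : be e u = 0) : u = al e u • ep e := by
  have h3 := hf_coord he u u
  rw [h1, h2, map_zero, mul_zero, mul_zero, zero_mul, zero_add, zero_add, hf_self, pr_snd,
    norm_zero] at h3
  have h4 : (0 : ℝ) = ‖(pr e u).1‖ ^ 2 - 0 ^ 2 := by exact_mod_cast h3
  have h5 : (pr e u).1 = 0 := by
    rw [← norm_eq_zero]
    nlinarith [norm_nonneg (pr e u).1]
  have h6 : pr e u = 0 := Prod.ext h5 (pr_snd u)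
  conv_lhs => rw [decomp e u, h2, h6]
  simp

include he in
theorem bruhat (g : U 𝕜 V) (hg : g ∉ stab (ep e : V × 𝕜)) : ∃ p ∈ stab (ep e : V × 𝕜),
    ∃ q ∈ stab (ep e : V × 𝕜), g = p * wl 𝕜 V * q := by
  set u := ap g (ep e : V × 𝕜) with hu
  have h0 : hf u u = 0 := by rw [hu, ap_hf, hf_pp he]
  have hb : be e u ≠ 0 := fun h => hg ⟨al e u, eq_of_be_zero he h0 h⟩
  set u' : V × 𝕜 := (be e u)⁻¹ • u with hu'
  have h0' : hf u' u' = 0 := by
    rw [hu', hf_smul_left, hf_smul_right, h0]; simp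
  have hb' : be e u' = 1 := by rw [hu', be_smul, inv_mul_cancel₀ hb]
  set c := al e u' with hc
  set z := pr e u' with hz
  have hdec : u' = c • ep e + em e + z := by
    conv_lhs => rw [decomp e u', hb', one_smul]
  have h1 : be e z = 0 := be_pr he u'
  have h2 : hf z z + 2 * (c + conj c) = 0 := by
    have h3 := hf_coord he u' u'
    rw [h0', hb'] at h3
    simp only [map_one, mul_one] at h3
    rw [← hz, ← hc] at h3
    linear_combination -h3
  let n : U 𝕜 V := mk (un e c z) (un_hf he h1 h2)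
  have hzp : hf z (ep e) = 0 := by
    have h3 : hf (ep e) z = 0 := by unfold be at h1; simpa using h1
    rw [← hf_conj, h3, map_zero]
  have hzm : hf z (em e) = 0 := by
    have h3 : hf (em e) z = 0 := by
      have := al_pr he u'
      unfold al at this; simpa using this
    rw [← hf_conj, h3, map_zero]
  have hn1 : ap n (ep e) = ep e := by
    show ap (mk (un e c z) _) _ = _
    rw [ap_mk, un_apply, be_p he, hzp]; simp
  have hn2 : ap n (em e) = u' := by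
    show ap (mk (un e c z) _) _ = _
    rw [ap_mk, un_apply, be_m he, hzm, hdec]; simp; abel
  refine ⟨n, ⟨1, by rw [hn1, one_smul]⟩, (n * wl 𝕜 V)⁻¹ * g, ⟨be e u, ?_⟩, by group⟩
  have h3 : ap (n * wl 𝕜 V) (be e u • ep e) = ap g (ep e) := by
    rw [ap_smul, ap_mul, wl_ep, hn2, hu', smul_smul, mul_inv_cancel₀ hb, one_smul]
  rw [ap_mul, ← h3, ap_inv_ap]

theorem langlands (p : U 𝕜 V) (hp : p ∈ stab (ep e : V × 𝕜)) : ∃ k ∈ stab (f0 : V × 𝕜),
    ∃ s : ℝ, Tendsto (fun t => bst he (-t) * p * bst he t) atTop (𝓝 (k * bst he s)) := by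
  obtain ⟨l, hl⟩ := hp
  have hl0 : l ≠ 0 := by
    intro h
    rw [h, zero_smul] at hl
    have h4 : (ep e : V × 𝕜) = 0 := by
      rw [← ap_inv_ap p (ep e), hl]
      exact map_zero _
    have h5 := congrArg Prod.snd h4
    simp [ep] at h5
  have hl0' : conj l ≠ 0 := by
    rw [Ne, map_eq_zero]; exact hl0
  have hbe : ∀ x : V × 𝕜, be e (ap p x) = (conj l)⁻¹ * be e x := by
    intro x
    have h := ap_hf p (ep e) x
    rw [hl, hf_smul_left] at h
    unfold be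
    rw [← h]
    field_simp
  let P : (V × 𝕜) →ₗ[𝕜] (V × 𝕜) :=
    (((p : ((V × 𝕜) →L[𝕜] (V × 𝕜))ˣ) : (V × 𝕜) →L[𝕜] (V × 𝕜)) : (V × 𝕜) →ₗ[𝕜] (V × 𝕜))
  have hP : ∀ x, P x = ap p x := fun _ => rfl
  have hb0 : ∀ x, be e (ap p (pr e x)) = 0 := fun x => by rw [hbe, be_pr he, mul_zero]
  have hA : ∀ x y, hf (pr e (P (pr e x))) (pr e (P (pr e y))) = hf (pr e x) (pr e y) := by
    intro x y
    have h := ap_hf p (pr e x) (pr e y)
    rw [hf_coord he (ap p (pr e x)), hb0, hb0] at h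
    rw [← h, hP, hP]
    simp
  have hm : conj l * (conj l)⁻¹ = 1 := mul_inv_cancel₀ hl0'
  let d : U 𝕜 V := mk (dg e l (conj l)⁻¹ P) (dg_hf he hm hA)
  have hd : ∀ x, ap d x = (l * al e x) • ep e + ((conj l)⁻¹ * be e x) • em e +
      pr e (ap p (pr e x)) := by
    intro x
    show ap (mk (dg e l (conj l)⁻¹ P) _) x = _
    rw [ap_mk, dg_apply, hP]
  have hcomp : ∀ (t : ℝ) (x : V × 𝕜), ap (bst he (-t) * p * bst he t) x = ap d x +
      ((((Real.exp (-t) : ℝ) : 𝕜) * ((Real.exp (-t) : ℝ) : 𝕜)) * (be e x * al e (ap p (em e))))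
        • ep e + (((Real.exp (-t) : ℝ) : 𝕜) * be e x) • pr e (ap p (em e)) +
      (((Real.exp (-t) : ℝ) : 𝕜) * al e (ap p (pr e x))) • ep e := by
    intro t x
    have he1 : ((Real.exp (-t) : ℝ) : 𝕜) * ((Real.exp t : ℝ) : 𝕜) = 1 := by
      rw [← RCLike.ofReal_mul, ← Real.exp_add, neg_add_cancel, Real.exp_zero, RCLike.ofReal_one]
    have h1 : ap p (ap (bst he t) x) = (((Real.exp t : ℝ) : 𝕜) * al e x * l) • ep e +
        (((Real.exp (-t) : ℝ) : 𝕜) * be e x) • ap p (em e) + ap p (pr e x) := by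
      rw [ap_bst, ap_add, ap_add, ap_smul, ap_smul, hl, smul_smul]
    rw [mul_assoc, ap_mul, ap_mul, h1, ap_bst, neg_neg]
    simp only [al_add, be_add, pr_add, al_smul, be_smul, pr_smul, al_p he, be_p he, pr_p he, hb0,
      smul_zero, zero_add, add_zero, mul_zero, mul_one, hbe (em e), be_m he]
    rw [hd]
    have h2 : (((Real.exp (-t) : ℝ) : 𝕜) * (((Real.exp t : ℝ) : 𝕜) * al e x * l +
        ((Real.exp (-t) : ℝ) : 𝕜) * be e x * al e (ap p (em e)) + al e (ap p (pr e x)))) =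
        l * al e x + (((Real.exp (-t) : ℝ) : 𝕜) * ((Real.exp (-t) : ℝ) : 𝕜)) *
          (be e x * al e (ap p (em e))) + ((Real.exp (-t) : ℝ) : 𝕜) * al e (ap p (pr e x)) := by
      linear_combination (al e x * l) * he1
    have h3 : (((Real.exp t : ℝ) : 𝕜) * (((Real.exp (-t) : ℝ) : 𝕜) * be e x * (conj l)⁻¹)) =
        (conj l)⁻¹ * be e x := by
      linear_combination (be e x * (conj l)⁻¹) * he1
    rw [h2, h3, add_smul, add_smul]
    abel
  have hn : 0 < ‖l‖ := norm_pos_iff.2 hl0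
  refine ⟨d * bst he (-Real.log ‖l‖), ⟨l / ((‖l‖ : ℝ) : 𝕜), ?_⟩, Real.log ‖l‖, ?_⟩
  · have h1 : al e (f0 : V × 𝕜) = 1 / 2 := by
      unfold al f0 em hf; simp
    have h2 : be e (f0 : V × 𝕜) = -(1 / 2) := by
      unfold be f0 ep hf; simp; ring
    have h3 : pr e (f0 : V × 𝕜) = 0 := by
      unfold pr; rw [h1, h2, f0_eq e]; simp
    have hn' : ((‖l‖ : ℝ) : 𝕜) ≠ 0 := by
      rw [Ne, RCLike.ofReal_eq_zero]; exact hn.ne'
    have h4 : l * conj l = ((‖l‖ : ℝ) : 𝕜) * ((‖l‖ : ℝ) : 𝕜) := by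
      rw [RCLike.mul_conj]; ring
    rw [ap_mul, hd, al_bst, be_bst, pr_bst, h1, h2, h3, neg_neg, Real.exp_log hn, Real.exp_neg,
      Real.exp_log hn]
    have h5 : ap p (0 : V × 𝕜) = 0 := map_zero _
    have h6 : pr e (0 : V × 𝕜) = 0 := by
      have := pr_smul (e := e) (0 : 𝕜) (0 : V × 𝕜)
      rw [zero_smul, zero_smul] at this
      exact this
    rw [h5, h6, add_zero, f0_eq e, smul_sub, smul_smul, smul_smul, sub_eq_add_neg, ← neg_smul]
    have h7 : l * (((‖l‖⁻¹ : ℝ) : 𝕜) * (1 / 2)) = l / ((‖l‖ : ℝ) : 𝕜) * (1 / 2) := by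
      push_cast; ring
    have h8 : (conj l)⁻¹ * (((‖l‖ : ℝ) : 𝕜) * -(1 / 2)) = -(l / ((‖l‖ : ℝ) : 𝕜) * (1 / 2)) := by
      field_simp
      linear_combination h4
    rw [h7, h8]
  · have h1 : d * bst he (-Real.log ‖l‖) * bst he (Real.log ‖l‖) = d := by
      rw [mul_assoc, ← bst_add, neg_add_cancel]
      have h2 : (bst he 0 : U 𝕜 V) = 1 := by
        have := bst_add (𝕜 := 𝕜) he 0 0
        rw [add_zero] at this
        exact mul_eq_left.1 this.symm
      rw [h2, mul_one]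
    rw [h1]
    apply tendsto_iff
    intro x
    have h2 : Tendsto (fun t : ℝ => ((Real.exp (-t) : ℝ) : 𝕜)) atTop (𝓝 0) := by
      have h3 : Tendsto (fun t : ℝ => Real.exp (-t)) atTop (𝓝 0) :=
        Real.tendsto_exp_atBot.comp tendsto_neg_atTop_atBot
      have h4 := (RCLike.continuous_ofReal (K := 𝕜)).tendsto 0 |>.comp h3
      rw [RCLike.ofReal_zero] at h4
      exact h4
    have h3 : (fun t : ℝ => ap (bst he (-t) * p * bst he t) x) = fun t : ℝ => ap d x +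
      ((((Real.exp (-t) : ℝ) : 𝕜) * ((Real.exp (-t) : ℝ) : 𝕜)) * (be e x * al e (ap p (em e))))
        • ep e + (((Real.exp (-t) : ℝ) : 𝕜) * be e x) • pr e (ap p (em e)) +
      (((Real.exp (-t) : ℝ) : 𝕜) * al e (ap p (pr e x))) • ep e := funext fun t => hcomp t x
    rw [h3]
    have h4 := ((tendsto_const_nhds (x := ap d x)).add
      (((h2.mul h2).mul_const (be e x * al e (ap p (em e)))).smul_const (ep e : V × 𝕜))).add
      ((h2.mul_const (be e x)).smul_const (pr e (ap p (em e))))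
    have h5 := h4.add ((h2.mul_const (al e (ap p (pr e x)))).smul_const (ep e : V × 𝕜))
    simp only [mul_zero, zero_mul, zero_smul, add_zero] at h5
    exact h5

/-- the unitary group of signature `(n, 1)` has real rank one -/
noncomputable def rankOne (he : ‖e‖ = 1) : RankOne (U 𝕜 V) where
  K := stab f0
  P := stab (ep e)
  a := bst he
  w := wl 𝕜 V
  compact := K_compact
  a_add := bst_add he
  a_cont := bst_cont he
  weyl := weyl he
  cartan := cartan he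
  iwasawa := iwasawa he
  bruhat := bruhat he
  langlands := langlands he

end

end Pool.Agent.E8helper77.Mk.Un1
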