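import Pool.Agent.E8helper77.Mk.UN1

/-!
Transport of the structure of a group of real rank one; groups of isometries of a hermitian form.
-/

set_option autoImplicit false
set_option linter.unusedSectionVars false

open Set Filter Topology
open scoped ComplexConjugate InnerProductSpace

namespace Pool.Agent.E8helper77.Mk

/-- transport along an isomorphism of topological groups -/
def RankOne.trans {G G' : Type} [Group G] [TopologicalSpace G] [Group G'] [TopologicalSpace G']
    (R : RankOne G') (φ : G ≃* G') (h2 : Continuous φ.symm) : RankOne G where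
  K := R.K.comap φ.toMonoidHom
  P := R.P.comap φ.toMonoidHom
  a t := φ.symm (R.a t)
  w := φ.symm R.w
  compact := by
    have h3 : (R.K.comap φ.toMonoidHom : Set G) = φ.symm '' (R.K : Set G') := by
      ext g
      constructor
      · intro hg
        exact ⟨φ g, hg, φ.symm_apply_apply g⟩
      · rintro ⟨k, hk, rfl⟩
        show φ (φ.symm k) ∈ R.K
        rw [φ.apply_symm_apply]; exact hk
    rw [h3]
    exact R.compact.image h2
  a_add s t := by rw [R.a_add, map_mul]
  a_cont := h2.comp R.a_cont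
  weyl t := by rw [← map_inv, ← map_mul, ← map_mul, R.weyl]
  cartan g := by
    obtain ⟨k, hk, l, hl, t, ht, h⟩ := R.cartan (φ g)
    refine ⟨φ.symm k, ?_, φ.symm l, ?_, t, ht, ?_⟩
    · show φ (φ.symm k) ∈ R.K
      rw [φ.apply_symm_apply]; exact hk
    · show φ (φ.symm l) ∈ R.K
      rw [φ.apply_symm_apply]; exact hl
    · rw [← map_mul, ← map_mul, ← h, φ.symm_apply_apply]
  iwasawa g := by
    obtain ⟨k, hk, l, hl, h⟩ := R.iwasawa (φ g)
    refine ⟨φ.symm k, ?_, φ.symm l, ?_, ?_⟩
    · show φ (φ.symm k) ∈ R.K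
      rw [φ.apply_symm_apply]; exact hk
    · show φ (φ.symm l) ∈ R.P
      rw [φ.apply_symm_apply]; exact hl
    · rw [← map_mul, ← h, φ.symm_apply_apply]
  bruhat g hg := by
    obtain ⟨k, hk, l, hl, h⟩ := R.bruhat (φ g) hg
    refine ⟨φ.symm k, ?_, φ.symm l, ?_, ?_⟩
    · show φ (φ.symm k) ∈ R.P
      rw [φ.apply_symm_apply]; exact hk
    · show φ (φ.symm l) ∈ R.P
      rw [φ.apply_symm_apply]; exact hl
    · rw [← map_mul, ← map_mul, ← h, φ.symm_apply_apply]
  langlands p hp := by
    obtain ⟨k, hk, s, h⟩ := R.langlands (φ p) hp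
    refine ⟨φ.symm k, ?_, s, ?_⟩
    · show φ (φ.symm k) ∈ R.K
      rw [φ.apply_symm_apply]; exact hk
    · have h3 := (h2.tendsto _).comp h
      rw [map_mul] at h3
      refine h3.congr fun t => ?_
      show φ.symm (R.a (-t) * φ p * R.a t) = _
      rw [map_mul, map_mul, φ.symm_apply_apply]

namespace Un1
variable {𝕜 V G : Type} [RCLike 𝕜] [NormedAddCommGroup V] [InnerProductSpace 𝕜 V]

/-- `τ` identifies the topological group `G` with the group of all linear maps which preserve the
form `⟪x, y⟫ - conj s * t` of signature `(n, 1)` on `V × 𝕜` -/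
def IsUnitary [Group G] [TopologicalSpace G] (τ : G →* Module.End 𝕜 (V × 𝕜)) : Prop :=
  IsEmbedding (fun (g : G) (x : V × 𝕜) => τ g x) ∧
    ∀ T : Module.End 𝕜 (V × 𝕜), (∃ g : G, τ g = T) ↔ ∀ x y, hf (T x) (T y) = hf x y

variable [FiniteDimensional 𝕜 V] [Group G] [TopologicalSpace G] {τ : G →* Module.End 𝕜 (V × 𝕜)}

theorem exists_iso (h : IsUnitary τ) : ∃ φ : G ≃* U 𝕜 V, Continuous φ.symm ∧
    ∀ g x, ap (φ g) x = τ g x := by
  have hp : ∀ g x y, hf (τ g x) (τ g y) = hf x y := fun g => (h.2 (τ g)).1 ⟨g, rfl⟩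
  let f : G →* U 𝕜 V :=
    { toFun := fun g => mk (τ g) (hp g)
      map_one' := by
        apply ext'
        intro x
        rw [ap_mk, map_one]; rfl
      map_mul' := by
        intro a b
        apply ext'
        intro x
        rw [ap_mk, map_mul, ap_mul, ap_mk, ap_mk]; rfl }
  have hf' : ∀ g x, ap (f g) x = τ g x := fun g x => ap_mk (τ g) (hp g) x
  have hinj : Function.Injective f := by
    intro a b hab
    apply h.1.injective
    funext x
    show τ a x = τ b x
    rw [← hf', ← hf', hab]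
  have hsurj : Function.Surjective f := by
    intro u
    let T : Module.End 𝕜 (V × 𝕜) :=
      (((u : ((V × 𝕜) →L[𝕜] (V × 𝕜))ˣ) : (V × 𝕜) →L[𝕜] (V × 𝕜)) : (V × 𝕜) →ₗ[𝕜] (V × 𝕜))
    obtain ⟨g, hg⟩ := (h.2 T).2 (fun x y => u.2 x y)
    refine ⟨g, ext' fun x => ?_⟩
    rw [hf', hg]; rfl
  let φ : G ≃* U 𝕜 V := MulEquiv.ofBijective f ⟨hinj, hsurj⟩
  have hφ : ∀ g x, ap (φ g) x = τ g x := hf'
  refine ⟨φ, ?_, hφ⟩
  rw [h.1.isInducing.continuous_iff]
  apply continuous_pi
  intro x
  have h1 : (fun u => ap u x) = fun u => τ (φ.symm u) x := funext fun u => by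
    rw [← hφ, φ.apply_symm_apply]
  show Continuous fun u => τ (φ.symm u) x
  rw [← h1]
  exact ap_cont x

end Un1

end Pool.Agent.E8helper77.Mk
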