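import Pool.Agent.E8helper77.Mk.Am

/-!
Conjugation by a diagonal one parameter group.
-/

set_option autoImplicit false
set_option linter.unusedSectionVars false

open Set Filter Topology Metric
open scoped commutatorElement
open Pool.Agent.W689.Mk Pool.Agent.TH94.MK

namespace Pool.Agent.E8helper77.Mk

section flag
variable {E ι : Type} [NormedAddCommGroup E] [NormedSpace ℝ E] [Fintype ι]

/-- number of larger weights -/
noncomputable def rk (c : ι → ℝ) (i : ι) : ℕ := by
  classical
  exact ((Finset.univ.image c).filter (fun x => c i < x)).card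

theorem rk_lt (c : ι → ℝ) (i : ι) : rk c i < Fintype.card ι + 1 := by
  classical
  have h1 : rk c i ≤ (Finset.univ.image c).card := by
    unfold rk
    convert Finset.card_filter_le _ _
  have h2 : (Finset.univ.image c).card ≤ Fintype.card ι := by
    have := Finset.card_image_le (s := (Finset.univ : Finset ι)) (f := c)
    rwa [Finset.card_univ] at this
  omega

theorem rk_lt_rk (c : ι → ℝ) {i j : ι} (h : c j < c i) : rk c i < rk c j := by
  classical
  have h1 : ((Finset.univ.image c).filter (fun x => c i < x)) ⊂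
      ((Finset.univ.image c).filter (fun x => c j < x)) := by
    rw [Finset.ssubset_iff_of_subset]
    · refine ⟨c i, ?_, ?_⟩
      · rw [Finset.mem_filter]
        exact ⟨Finset.mem_image_of_mem _ (Finset.mem_univ _), h⟩
      · rw [Finset.mem_filter]
        exact fun h2 => lt_irrefl _ h2.2
    · intro x hx
      rw [Finset.mem_filter] at hx ⊢
      exact ⟨hx.1, h.trans hx.2⟩
  have h2 := Finset.card_lt_card h1
  unfold rk
  convert h2

/-- the flag -/
noncomputable def Wf (b : Module.Basis ι ℝ E) (c : ι → ℝ) (n : ℕ) : Submodule ℝ E where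
  carrier := {v | ∀ i, n ≤ rk c i → b.coord i v = 0}
  add_mem' := by
    intro v w hv hw i hi
    rw [map_add, hv i hi, hw i hi, add_zero]
  zero_mem' := fun i _ => map_zero _
  smul_mem' := by
    intro r v hv i hi
    rw [map_smul, hv i hi, smul_zero]

theorem Wf_mono (b : Module.Basis ι ℝ E) (c : ι → ℝ) : Monotone (Wf b c) :=
  fun _ _ hnm _ hv i hi => hv i (hnm.trans hi)

theorem Wf_zero (b : Module.Basis ι ℝ E) (c : ι → ℝ) : Wf b c 0 = ⊥ := by
  rw [Submodule.eq_bot_iff]
  intro v hv
  exact b.forall_coord_eq_zero_iff.1 fun i => hv i (Nat.zero_le _)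

theorem Wf_top (b : Module.Basis ι ℝ E) (c : ι → ℝ) : Wf b c (Fintype.card ι + 1) = ⊤ := by
  rw [Submodule.eq_top_iff']
  intro v i hi
  exact absurd hi (not_le.2 (rk_lt c i))

end flag

section
variable {E Γ X ι : Type} [NormedAddCommGroup E] [NormedSpace ℝ E] [FiniteDimensional ℝ E]
  [Group Γ] {hol : Γ →* (E ≃ᵃ[ℝ] E)} [Fintype ι]

theorem diag_apply (b : Module.Basis ι ℝ E) (T : E →L[ℝ] E) (r : ι → ℝ)
    (h : ∀ i, T (b i) = r i • b i) (v : E) : T v = ∑ i, (r i * b.coord i v) • b i := by
  conv_lhs => rw [← b.sum_repr v]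
  rw [map_sum]
  refine Finset.sum_congr rfl fun i _ => ?_
  rw [map_smul, h, smul_smul, mul_comm]
  rfl

theorem diag_coord (b : Module.Basis ι ℝ E) (T : E →L[ℝ] E) (r : ι → ℝ)
    (h : ∀ i, T (b i) = r i • b i) (v : E) (i : ι) : b.coord i (T v) = r i * b.coord i v := by
  classical
  rw [diag_apply b T r h v, map_sum]
  simp only [map_smul, Module.Basis.coord_apply, Module.Basis.repr_self, smul_eq_mul]
  rw [Finset.sum_eq_single i]
  · simp
  · intro j _ hj
    rw [Finsupp.single_eq_of_ne (Ne.symm hj), mul_zero]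
  · intro h; exact absurd (Finset.mem_univ i) h

variable [TopologicalSpace X] [T2Space X] [SecondCountableTopology X] [Nonempty X]
  [MulAction Γ X] {dev : X → E}

theorem lim_mul {u v : ℝ → (E →L[ℝ] E)} (uv : ∀ t, u t * v t = 1) {γ δ : Γ}
    {A B : E →L[ℝ] E} (hA : Tendsto (fun t => v t * Lc hol γ * u t) atTop (𝓝 A))
    (hB : Tendsto (fun t => v t * Lc hol δ * u t) atTop (𝓝 B)) :
    Tendsto (fun t => v t * Lc hol (γ * δ) * u t) atTop (𝓝 (A * B)) := by
  have h2 : (fun t => v t * Lc hol (γ * δ) * u t) =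
      fun t => (v t * Lc hol γ * u t) * (v t * Lc hol δ * u t) := by
    funext t
    rw [Lc_mul]
    calc v t * (Lc hol γ * Lc hol δ) * u t = v t * Lc hol γ * 1 * Lc hol δ * u t := by
          simp only [mul_one, mul_assoc]
      _ = v t * Lc hol γ * (u t * v t) * Lc hol δ * u t := by rw [uv]
      _ = _ := by simp only [mul_assoc]
  rw [h2]
  exact hA.mul hB

theorem kernel_step (b : Module.Basis ι ℝ E) (c : ι → ℝ) {u v : ℝ → (E →L[ℝ] E)}
    (uv : ∀ t, u t * v t = 1)
    (hv : ∀ t i, v t (b i) = Real.exp (-(c i * t)) • b i) {T : E →L[ℝ] E}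
    (hT : Tendsto (fun t => v t * T * u t) atTop (𝓝 1)) (n : ℕ) (x : E) (hx : x ∈ Wf b c n) :
    T x - x ∈ Wf b c (n - 1) := by
  intro i hi
  rcases Nat.eq_zero_or_pos n with rfl | hn
  · rw [Wf_zero, Submodule.mem_bot] at hx
    rw [hx, map_zero, sub_zero, map_zero]
  have hw : ∀ j, b.coord j x ≠ 0 → c i ≤ c j := by
    intro j hj
    by_contra hcon
    push Not at hcon
    have h1 := rk_lt_rk c hcon
    have h2 : ¬ n ≤ rk c j := fun h => hj (hx j h)
    omega
  let f : E →L[ℝ] ℝ := LinearMap.toContinuousLinearMap (b.coord i)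
  have hf : ∀ y, f y = b.coord i y := fun y => rfl
  set B : ℝ := ∑ j, |b.coord j x| * ‖b j‖ with hB
  have hbd : ∀ t : ℝ, 0 ≤ t → ‖Real.exp (c i * t) • v t x‖ ≤ B := by
    intro t ht
    rw [diag_apply b (v t) (fun j => Real.exp (-(c j * t))) (hv t) x, Finset.smul_sum]
    refine (norm_sum_le _ _).trans (Finset.sum_le_sum fun j _ => ?_)
    rw [smul_smul, norm_smul, Real.norm_eq_abs]
    refine mul_le_mul_of_nonneg_right ?_ (norm_nonneg _)
    rw [← mul_assoc, ← Real.exp_add, abs_mul, abs_of_pos (Real.exp_pos _)]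
    by_cases hj : b.coord j x = 0
    · rw [hj]; simp
    · have h1 := hw j hj
      have h2 : Real.exp (c i * t + -(c j * t)) ≤ 1 := by
        rw [Real.exp_le_one_iff]; nlinarith
      calc Real.exp (c i * t + -(c j * t)) * |b.coord j x| ≤ 1 * |b.coord j x| := by gcongr
        _ = |b.coord j x| := one_mul _
  have hconst : ∀ t : ℝ, f (T x - x) = f ((v t * T * u t - 1) (Real.exp (c i * t) • v t x)) := by
    intro t
    have h1 : u t (v t x) = x := congrArg (fun S : E →L[ℝ] E => S x) (uv t)
    have h2 : (v t * T * u t - 1) (Real.exp (c i * t) • v t x) =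
        Real.exp (c i * t) • v t (T x - x) := by
      rw [map_smul]
      congr 1
      show v t (T (u t (v t x))) - v t x = _
      rw [h1, map_sub]
    rw [h2, map_smul, hf (v t (T x - x)),
      diag_coord b (v t) (fun j => Real.exp (-(c j * t))) (hv t), smul_eq_mul, ← mul_assoc,
      ← Real.exp_add, add_neg_cancel, Real.exp_zero, one_mul, hf]
  have hlim : Tendsto (fun t => ‖f‖ * (‖v t * T * u t - 1‖ * B)) atTop (𝓝 0) := by
    have h1 := (hT.sub_const 1).norm
    rw [sub_self, norm_zero] at h1
    have h2 := (h1.mul_const B).const_mul ‖f‖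
    simpa using h2
  have h3 : ‖f (T x - x)‖ ≤ 0 := by
    refine ge_of_tendsto hlim ?_
    filter_upwards [eventually_ge_atTop 0] with t ht
    rw [hconst t]
    refine (f.le_opNorm _).trans ?_
    gcongr
    refine ((v t * T * u t - 1).le_opNorm _).trans ?_
    gcongr
    exact hbd t ht
  have h4 : f (T x - x) = 0 := norm_le_zero_iff.1 h3
  rw [← hf]; exact h4

/-- Completeness, if conjugation by a diagonal one parameter group brings the linear parts to a
bounded group. -/
theorem complete_of_weights (D : AffData X Γ E dev hol) (hinj : Function.Injective dev)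
    (b : Module.Basis ι ℝ E) (c : ι → ℝ) (u v : ℝ → (E →L[ℝ] E))
    (uv : ∀ t, u t * v t = 1) (vu : ∀ t, v t * u t = 1)
    (hv : ∀ t i, v t (b i) = Real.exp (-(c i * t)) • b i) (Dl : Γ → (E →L[ℝ] E))
    (hlim : ∀ γ, Tendsto (fun t => v t * Lc hol γ * u t) atTop (𝓝 (Dl γ))) (C : ℝ) (hC : 1 ≤ C)
    (hb : ∀ γ ∈ commutator Γ, ‖Dl γ‖ ≤ C)
    (hc : ∀ σ, ∀ γ ∈ commutator Γ, ‖Dl (σ * γ * σ⁻¹) - 1‖ ≤ C * ‖Dl γ - 1‖) :
    IsHomeomorph dev := by
  have hone : Dl 1 = 1 := by
    have h1 := hlim 1
    have h2 : (fun t => v t * Lc hol 1 * u t) = fun _ : ℝ => (1 : E →L[ℝ] E) := by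
      funext t; rw [Lc_one, mul_one, vu]
    rw [h2] at h1
    exact tendsto_nhds_unique h1 tendsto_const_nhds
  have hmul : ∀ γ δ, Dl (γ * δ) = Dl γ * Dl δ := fun γ δ =>
    tendsto_nhds_unique (hlim _) (lim_mul uv (hlim γ) (hlim δ))
  have L : LimData hol u v Dl C (Wf b c) (Fintype.card ι + 1) :=
    { uv := uv
      vu := vu
      grow := by
        obtain ⟨M, hM⟩ : ∃ M : ℝ, ∀ i, -c i ≤ M := by
          obtain ⟨M, hM⟩ := (Set.finite_range fun i => -c i).bddAbove
          exact ⟨M, fun i => hM (mem_range_self i)⟩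
        refine ⟨∑ i, ‖LinearMap.toContinuousLinearMap (b.coord i)‖ * ‖b i‖, M, fun t ht => ?_⟩
        refine ContinuousLinearMap.opNorm_le_bound _ (by positivity) fun x => ?_
        rw [diag_apply b (v t) (fun j => Real.exp (-(c j * t))) (hv t) x, Finset.sum_mul,
          Finset.sum_mul]
        refine (norm_sum_le _ _).trans (Finset.sum_le_sum fun j _ => ?_)
        rw [norm_smul, norm_mul, Real.norm_of_nonneg (Real.exp_pos _).le]
        have h1 : ‖b.coord j x‖ ≤ ‖LinearMap.toContinuousLinearMap (b.coord j)‖ * ‖x‖ :=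
          (LinearMap.toContinuousLinearMap (b.coord j)).le_opNorm x
        have h2 : Real.exp (-(c j * t)) ≤ Real.exp (M * t) := by
          apply Real.exp_le_exp.2
          nlinarith [hM j]
        calc Real.exp (-(c j * t)) * ‖b.coord j x‖ * ‖b j‖
            ≤ Real.exp (M * t) * (‖LinearMap.toContinuousLinearMap (b.coord j)‖ * ‖x‖) * ‖b j‖ := by
              gcongr
          _ = _ := by ring
      lim := hlim
      one_le := hC
      bdd := hb
      conj := hc
      mono := Wf_mono b c
      bot := Wf_zero b c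
      top := Wf_top b c
      ker := by
        intro γ hγ n x hx
        constructor
        · have h1 := hlim γ
          rw [hγ] at h1
          exact kernel_step b c uv hv h1 n x hx
        · have h1 := hlim γ⁻¹
          have h2 : Dl γ⁻¹ = 1 := by
            have h3 := hmul γ γ⁻¹
            rw [mul_inv_cancel, hone, hγ, one_mul] at h3
            exact h3.symm
          rw [h2] at h1
          have h3 := kernel_step b c uv hv h1 n x hx
          have h4 : (hol γ).linear.symm x = Lc hol γ⁻¹ x := by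
            rw [Lc_apply, map_inv]; rfl
          rw [h4]; exact h3 }
  exact L.complete D hinj

end

end Pool.Agent.E8helper77.Mk
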