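import Mathlib

/-!
Discrete groups whose elements are conjugated close to a bounded group: commutators of small
elements, after Zassenhaus and Jordan.
-/

set_option autoImplicit false
set_option linter.unusedSectionVars false

open Filter Topology Set
open scoped commutatorElement

namespace Pool.Agent.E8helper77.Mk

section grp

theorem solvable_of_commutator {G : Type} [Group G] {H K : Subgroup G} (h : ⁅H, H⁆ ≤ K)
    (hK : Group.IsSolvable K) : Group.IsSolvable H := by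
  have h1 : (commutator H).map H.subtype ≤ K := by
    rw [Subgroup.map_subtype_commutator]; exact h
  let f : commutator H →* K :=
    { toFun := fun x => ⟨((x : H) : G), h1 ⟨x, x.2, rfl⟩⟩
      map_one' := rfl
      map_mul' := fun _ _ => rfl }
  have hf : Function.Injective f := by
    intro x y hxy
    have h2 : ((f x : K) : G) = ((f y : K) : G) := congrArg (fun t : K => (t : G)) hxy
    exact Subtype.ext (Subtype.ext h2)
  have : Group.IsSolvable (commutator H) :=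
    Group.isSolvable_of_isSolvable_injective (f := f) hf
  have : Group.IsSolvable (Abelianization H) := Group.isSolvable_of_comm fun a b => mul_comm a b
  refine Group.isSolvable_of_ker_le_range (commutator H).subtype (Abelianization.of (G := H)) ?_
  rw [Abelianization.ker_of, Subgroup.range_subtype]

theorem solvable_mono {G : Type} [Group G] {H K : Subgroup G} (h : H ≤ K)
    (hK : Group.IsSolvable K) : Group.IsSolvable H :=
  Group.isSolvable_of_isSolvable_injective (f := Subgroup.inclusion h)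
    (Subgroup.inclusion_injective h)

/-- a normal subgroup of finite index in the commutator subgroup -/
theorem virt {Γ : Type} [Group Γ] (Λ : Subgroup Γ) [Λ.Normal] (hf : Finite
    ((commutator Γ).map (QuotientGroup.mk' Λ))) :
    ∃ C : Subgroup Γ, C.FiniteIndex ∧ ⁅C, C⁆ ≤ commutator Γ ⊓ C ∧
      ⁅commutator Γ ⊓ C, commutator Γ ⊓ C⁆ ≤ Λ := by
  let F : Subgroup (Γ ⧸ Λ) := (commutator Γ).map (QuotientGroup.mk' Λ)
  have : F.Normal := by
    refine Subgroup.Normal.map inferInstance _ (QuotientGroup.mk'_surjective Λ)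
  have : Finite F := hf
  let c : Γ ⧸ Λ →* MulAut F := MulAut.conjNormal
  have : Finite (MulAut F) := inferInstance
  have hk : c.ker.FiniteIndex := inferInstance
  let C : Subgroup Γ := c.ker.comap (QuotientGroup.mk' Λ)
  have hC : ∀ g ∈ C, ∀ d ∈ commutator Γ, (QuotientGroup.mk' Λ g) * (QuotientGroup.mk' Λ d) =
      (QuotientGroup.mk' Λ d) * (QuotientGroup.mk' Λ g) := by
    intro g hg d hd
    have h1 : c (QuotientGroup.mk' Λ g) = 1 := hg
    have h2 := congrArg (fun t : MulAut F => ((t ⟨QuotientGroup.mk' Λ d, d, hd, rfl⟩ : F) : Γ ⧸ Λ)) h1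
    have h3 : (QuotientGroup.mk' Λ g) * (QuotientGroup.mk' Λ d) * (QuotientGroup.mk' Λ g)⁻¹ =
        QuotientGroup.mk' Λ d := h2
    rw [mul_inv_eq_iff_eq_mul] at h3
    exact h3
  refine ⟨C, ?_, ?_, ?_⟩
  · refine ⟨?_⟩
    rw [Subgroup.index_comap_of_surjective _ (QuotientGroup.mk'_surjective Λ)]
    exact hk.index_ne_zero
  · refine le_inf ?_ (Subgroup.commutator_le_self C)
    rw [commutator_def]
    exact Subgroup.commutator_mono le_top le_top
  · rw [Subgroup.commutator_le]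
    intro x hx y hy
    have h1 := hC x hx.2 y hy.1
    rw [← map_mul, ← map_mul] at h1
    have h2 : QuotientGroup.mk' Λ ⁅x, y⁆ = 1 := by
      rw [commutatorElement_def, map_mul, map_mul, h1, map_mul, map_inv, map_inv]
      group
    have h3 : ⁅x, y⁆ ∈ (QuotientGroup.mk' Λ).ker := h2
    rwa [QuotientGroup.ker_mk'] at h3

theorem virt_solvable {Γ G : Type} [Group Γ] [Group G] (L : Γ →* G) (Λ : Subgroup Γ) [Λ.Normal]
    (hf : Finite ((commutator Γ).map (QuotientGroup.mk' Λ)))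
    (hs : Group.IsSolvable (Λ.map L)) :
    ∃ C : Subgroup Γ, C.FiniteIndex ∧ Group.IsSolvable (C.map L) := by
  obtain ⟨C, h1, h2, h3⟩ := virt Λ hf
  refine ⟨C, h1, ?_⟩
  refine solvable_of_commutator (K := (commutator Γ ⊓ C).map L) ?_ ?_
  · rw [← Subgroup.map_commutator]
    exact Subgroup.map_mono h2
  · refine solvable_of_commutator (K := Λ.map L) ?_ hs
    rw [← Subgroup.map_commutator]
    exact Subgroup.map_mono h3

end grp

section uni
variable {E : Type} [AddCommGroup E] [Module ℝ E]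

/-- linear maps moving the members of the flag `k` steps down -/
def Un (W : ℕ → Submodule ℝ E) (hW : Monotone W) (k : ℕ) : Subgroup (E ≃ₗ[ℝ] E) where
  carrier := {T | ∀ i, ∀ v ∈ W i, T v - v ∈ W (i - k) ∧ T.symm v - v ∈ W (i - k)}
  one_mem' := fun i v _ => ⟨by
    show v - v ∈ _
    rw [sub_self]; exact Submodule.zero_mem _, by
    show v - v ∈ _
    rw [sub_self]; exact Submodule.zero_mem _⟩
  mul_mem' := by
    intro T S hT hS i v hv
    constructor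
    · have h1 := (hS i v hv).1
      have h2 : T (S v - v) - (S v - v) ∈ W (i - k) :=
        hW (Nat.sub_le _ _) (hT (i - k) _ h1).1
      have h3 := (hT i v hv).1
      have h4 : (T * S) v - v = (T (S v - v) - (S v - v)) + (S v - v) + (T v - v) := by
        show T (S v) - v = _
        rw [map_sub]; abel
      rw [h4]
      exact Submodule.add_mem _ (Submodule.add_mem _ h2 h1) h3
    · have h1 := (hT i v hv).2
      have h2 : S.symm (T.symm v - v) - (T.symm v - v) ∈ W (i - k) :=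
        hW (Nat.sub_le _ _) (hS (i - k) _ h1).2
      have h3 := (hS i v hv).2
      have h4 : (T * S).symm v - v =
          (S.symm (T.symm v - v) - (T.symm v - v)) + (T.symm v - v) + (S.symm v - v) := by
        show S.symm (T.symm v) - v = _
        rw [map_sub]; abel
      rw [h4]
      exact Submodule.add_mem _ (Submodule.add_mem _ h2 h1) h3
  inv_mem' := by
    intro T hT i v hv
    exact ⟨(hT i v hv).2, (hT i v hv).1⟩

theorem Un_pres {W : ℕ → Submodule ℝ E} {hW : Monotone W} {k : ℕ} {T : E ≃ₗ[ℝ] E}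
    (hT : T ∈ Un W hW k) {i : ℕ} {v : E} (hv : v ∈ W i) : T v ∈ W i := by
  have h1 := hW (Nat.sub_le i k) (hT i v hv).1
  have h2 := Submodule.add_mem _ h1 hv
  rwa [sub_add_cancel] at h2

theorem Un_comm_aux {W : ℕ → Submodule ℝ E} {hW : Monotone W} {k l : ℕ} {T S : E ≃ₗ[ℝ] E}
    (hT : T ∈ Un W hW k) (hS : S ∈ Un W hW l) {i : ℕ} {v : E} (hv : v ∈ W i) :
    (T * S * T⁻¹ * S⁻¹) v - v ∈ W (i - (k + l)) := by
  set u : E := T⁻¹ (S⁻¹ v) with hu
  have hui : u ∈ W i := Un_pres (inv_mem hT) (Un_pres (inv_mem hS) hv)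
  have hvu : v = S (T u) := by
    rw [hu]
    show v = S (T (T.symm (S.symm v)))
    simp
  have h1 : (T * S * T⁻¹ * S⁻¹) v = T (S u) := rfl
  have h2 : T (S u) - S (T u) = (T (S u - u) - (S u - u)) - (S (T u - u) - (T u - u)) := by
    rw [map_sub, map_sub]; abel
  have h5 : T (S u) - v = T (S u) - S (T u) := congrArg (fun t => T (S u) - t) hvu
  rw [h1, h5, h2]
  refine Submodule.sub_mem _ ?_ ?_
  · have h3 := (hT _ _ (hS i u hui).1).1
    rwa [Nat.sub_sub, add_comm l k] at h3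
  · have h3 := (hS _ _ (hT i u hui).1).1
    rwa [Nat.sub_sub] at h3

theorem Un_comm (W : ℕ → Submodule ℝ E) (hW : Monotone W) (k l : ℕ) :
    ⁅Un W hW k, Un W hW l⁆ ≤ Un W hW (k + l) := by
  rw [Subgroup.commutator_le]
  intro T hT S hS i v hv
  constructor
  · exact Un_comm_aux hT hS hv
  · have h1 := Un_comm_aux hS hT hv
    rw [add_comm l k] at h1
    have h2 : (⁅T, S⁆ : E ≃ₗ[ℝ] E).symm = S * T * S⁻¹ * T⁻¹ := by
      show (⁅T, S⁆ : E ≃ₗ[ℝ] E)⁻¹ = _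
      rw [commutatorElement_inv, commutatorElement_def]
    rw [h2]
    exact h1

theorem Un_solvable (W : ℕ → Submodule ℝ E) (hW : Monotone W) (h0 : W 0 = ⊥) {m : ℕ}
    (hm : W m = ⊤) : Group.IsSolvable (Un W hW 1) := by
  have key : ∀ j, ∀ k, 1 ≤ k → m ≤ k + j → Group.IsSolvable (Un W hW k) := by
    intro j
    induction j with
    | zero =>
      intro k _ hk
      have h1 : ∀ T ∈ Un W hW k, T = 1 := by
        intro T hT
        refine LinearEquiv.ext fun v => ?_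
        have h2 := (hT m v (by rw [hm]; exact Submodule.mem_top)).1
        rw [Nat.sub_eq_zero_of_le (by simpa using hk), h0, Submodule.mem_bot, sub_eq_zero] at h2
        exact h2
      refine Group.isSolvable_of_comm fun a b => ?_
      apply Subtype.ext
      show (a : E ≃ₗ[ℝ] E) * b = b * a
      rw [h1 a a.2, h1 b b.2]
    | succ j ih =>
      intro k h1 hk
      refine solvable_of_commutator (K := Un W hW (k + k)) (Un_comm W hW k k) ?_
      exact ih (k + k) (by omega) (by omega)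
  exact key m 1 le_rfl (by omega)

end uni

section zas
variable {Γ A : Type} [Group Γ] [NormedRing A] [NormedAlgebra ℝ A]

/-- iterated commutators with elements of `S` -/
def CS (S : Set Γ) : ℕ → Set Γ
  | 0 => S
  | k + 1 => {z | ∃ y ∈ CS S k, ∃ x ∈ S, z = y * x * y⁻¹ * x⁻¹}

theorem CS_closure {S : Set Γ} (k : ℕ) {z : Γ} (hz : z ∈ CS S k) : z ∈ Subgroup.closure S := by
  induction k generalizing z with
  | zero => exact Subgroup.subset_closure hz
  | succ k ih =>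
    obtain ⟨y, hy, x, hx, rfl⟩ := hz
    have h1 := ih hy
    have h2 : x ∈ Subgroup.closure S := Subgroup.subset_closure hx
    exact mul_mem (mul_mem (mul_mem h1 h2) (inv_mem h1)) (inv_mem h2)

theorem map_mul_inv (Φ : Γ →* A) (x : Γ) : Φ x * Φ x⁻¹ = 1 := by
  rw [← map_mul, mul_inv_cancel, map_one]

theorem map_inv_mul (Φ : Γ →* A) (x : Γ) : Φ x⁻¹ * Φ x = 1 := by
  rw [← map_mul, inv_mul_cancel, map_one]

theorem inv_bound (Φ : Γ →* A) (h1 : ‖(1 : A)‖ ≤ 1) {x : Γ} (hx : ‖Φ x - 1‖ ≤ 1 / 16) :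
    ‖Φ x⁻¹‖ ≤ 2 := by
  have h2 : Φ x⁻¹ = 1 - Φ x⁻¹ * (Φ x - 1) := by
    rw [mul_sub, map_inv_mul, mul_one]; abel
  have h3 : ‖Φ x⁻¹‖ ≤ 1 + ‖Φ x⁻¹‖ * (1 / 16) := by
    calc ‖Φ x⁻¹‖ = ‖1 - Φ x⁻¹ * (Φ x - 1)‖ := by rw [← h2]
      _ ≤ ‖(1 : A)‖ + ‖Φ x⁻¹ * (Φ x - 1)‖ := norm_sub_le _ _
      _ ≤ 1 + ‖Φ x⁻¹‖ * ‖Φ x - 1‖ := add_le_add h1 (norm_mul_le _ _)
      _ ≤ 1 + ‖Φ x⁻¹‖ * (1 / 16) := by gcongr
  have h4 := norm_nonneg (Φ x⁻¹)
  linarith

theorem comm_small (Φ : Γ →* A) (h1 : ‖(1 : A)‖ ≤ 1) {x y : Γ} (hx : ‖Φ x - 1‖ ≤ 1 / 16)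
    (hy : ‖Φ y - 1‖ ≤ 1 / 16) : ‖Φ (y * x * y⁻¹ * x⁻¹) - 1‖ ≤ ‖Φ y - 1‖ / 2 := by
  have e1 : Φ (y * x * y⁻¹ * x⁻¹) - 1 =
      ((Φ y - 1) * (Φ x - 1) - (Φ x - 1) * (Φ y - 1)) * Φ y⁻¹ * Φ x⁻¹ := by
    have h2 : (Φ y - 1) * (Φ x - 1) - (Φ x - 1) * (Φ y - 1) = Φ y * Φ x - Φ x * Φ y := by
      noncomm_ring
    rw [h2, sub_mul, sub_mul]
    have h3 : Φ x * Φ y * Φ y⁻¹ * Φ x⁻¹ = 1 := by
      rw [mul_assoc (Φ x), map_mul_inv, mul_one, map_mul_inv]
    rw [h3, map_mul, map_mul, map_mul]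
  have hx' := inv_bound Φ h1 hx
  have hy' := inv_bound Φ h1 hy
  have n0 := norm_nonneg (Φ y - 1)
  have n1 := norm_nonneg (Φ x - 1)
  rw [e1]
  calc ‖((Φ y - 1) * (Φ x - 1) - (Φ x - 1) * (Φ y - 1)) * Φ y⁻¹ * Φ x⁻¹‖
      ≤ ‖((Φ y - 1) * (Φ x - 1) - (Φ x - 1) * (Φ y - 1)) * Φ y⁻¹‖ * ‖Φ x⁻¹‖ := norm_mul_le _ _
    _ ≤ ‖(Φ y - 1) * (Φ x - 1) - (Φ x - 1) * (Φ y - 1)‖ * ‖Φ y⁻¹‖ * ‖Φ x⁻¹‖ := by
        gcongr; exact norm_mul_le _ _
    _ ≤ (‖(Φ y - 1) * (Φ x - 1)‖ + ‖(Φ x - 1) * (Φ y - 1)‖) * 2 * 2 := by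
        gcongr; exact norm_sub_le _ _
    _ ≤ (‖Φ y - 1‖ * ‖Φ x - 1‖ + ‖Φ x - 1‖ * ‖Φ y - 1‖) * 2 * 2 := by
        gcongr <;> exact norm_mul_le _ _
    _ ≤ (‖Φ y - 1‖ * (1 / 16) + 1 / 16 * ‖Φ y - 1‖) * 2 * 2 := by gcongr
    _ = ‖Φ y - 1‖ / 2 := by ring

theorem CS_small (Φ : Γ →* A) (h1 : ‖(1 : A)‖ ≤ 1) {S : Set Γ}
    (hS : ∀ x ∈ S, ‖Φ x - 1‖ ≤ 1 / 16) (k : ℕ) :
    ∀ z ∈ CS S k, ‖Φ z - 1‖ ≤ (1 / 2) ^ k * (1 / 16) := by
  induction k with
  | zero => intro z hz; simpa using hS z hz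
  | succ k ih =>
    rintro _ ⟨y, hy, x, hx, rfl⟩
    have h2 := ih y hy
    have h3 : ((1 : ℝ) / 2) ^ k ≤ 1 := pow_le_one₀ (by norm_num) (by norm_num)
    have h4 := comm_small Φ h1 (hS x hx) (h2.trans (by linarith))
    rw [pow_succ]
    linarith

/-- conjugate of a homomorphism -/
def conjHom (Φ : Γ →* A) (U V : A) (h : U * V = 1) (h' : V * U = 1) : Γ →* A where
  toFun γ := V * Φ γ * U
  map_one' := by rw [map_one, mul_one, h']
  map_mul' γ δ := by
    rw [map_mul]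
    calc V * (Φ γ * Φ δ) * U = V * Φ γ * 1 * Φ δ * U := by noncomm_ring
      _ = V * Φ γ * (U * V) * Φ δ * U := by rw [h]
      _ = V * Φ γ * U * (V * Φ δ * U) := by noncomm_ring

theorem CS_trivial (Φ : Γ →* A) (h1 : ‖(1 : A)‖ ≤ 1) {η : ℝ} (hη : 0 < η)
    (hd : ∀ γ, ‖Φ γ - 1‖ < η → Φ γ = 1) {U V : A} (h : U * V = 1) (h' : V * U = 1) {S : Set Γ}
    (hS : ∀ x ∈ S, ‖V * Φ x * U - 1‖ ≤ 1 / 16) : ∃ k, ∀ z ∈ CS S k, Φ z = 1 := by
  have h2 := CS_small (conjHom Φ U V h h') h1 (S := S) hS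
  have h3 : Tendsto (fun k : ℕ => ‖U‖ * (((1 : ℝ) / 2) ^ k * (1 / 16)) * ‖V‖) atTop (𝓝 0) := by
    have h4 := tendsto_pow_atTop_nhds_zero_of_lt_one (r := (1 : ℝ) / 2) (by norm_num) (by norm_num)
    have h5 := ((h4.mul_const (1 / 16)).const_mul ‖U‖).mul_const ‖V‖
    simpa using h5
  obtain ⟨k, hk⟩ := (h3.eventually_lt_const hη).exists
  refine ⟨k, fun z hz => hd z ?_⟩
  refine lt_of_le_of_lt ?_ hk
  have e1 : Φ z - 1 = U * (V * Φ z * U - 1) * V := by
    calc Φ z - 1 = (U * V) * Φ z * (U * V) - U * V := by rw [h, one_mul, mul_one]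
      _ = U * (V * Φ z * U - 1) * V := by noncomm_ring
  rw [e1]
  calc ‖U * (V * Φ z * U - 1) * V‖ ≤ ‖U * (V * Φ z * U - 1)‖ * ‖V‖ := norm_mul_le _ _
    _ ≤ ‖U‖ * ‖V * Φ z * U - 1‖ * ‖V‖ := by gcongr; exact norm_mul_le _ _
    _ ≤ ‖U‖ * ((1 / 2) ^ k * (1 / 16)) * ‖V‖ := by
        gcongr
        exact h2 k z hz

end zas

section jor
variable {Γ A : Type} [Group Γ] [NormedRing A] [NormedAlgebra ℝ A]

theorem jordan_step (D : Γ →* A) (h1 : ‖(1 : A)‖ ≤ 1) {N : Subgroup Γ} {C ε : ℝ}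
    (hC : ∀ γ ∈ N, ‖D γ‖ ≤ C) (hε : C * ε * C ≤ 1 / 2) (hC0 : 0 ≤ C) {x y : Γ} (hx : x ∈ N)
    (hy : y ∈ N) (hxε : ‖D x - 1‖ ≤ ε)
    (hzx : D (y * x * y⁻¹ * x⁻¹) * D x = D x * D (y * x * y⁻¹ * x⁻¹))
    (hzy : D (y * x * y⁻¹ * x⁻¹) * D y = D y * D (y * x * y⁻¹ * x⁻¹)) :
    D (y * x * y⁻¹ * x⁻¹) = 1 := by
  set z : Γ := y * x * y⁻¹ * x⁻¹ with hz
  have hzN : z ∈ N := mul_mem (mul_mem (mul_mem hy hx) (inv_mem hy)) (inv_mem hx)
  set w : A := D z - 1 with hw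
  have hyx : D (y * x * y⁻¹) = D z * D x := by
    rw [← map_mul, hz]; congr 1; group
  have hzyk : ∀ k : ℕ, D z ^ k * D y = D y * D z ^ k := by
    intro k
    induction k with
    | zero => simp
    | succ k ih => rw [pow_succ, mul_assoc, hzy, ← mul_assoc, ih, mul_assoc]
  have hconj : ∀ k : ℕ, D (y ^ k * x * (y ^ k)⁻¹) = D z ^ k * D x := by
    intro k
    induction k with
    | zero => simp
    | succ k ih =>
      have e1 : y ^ (k + 1) * x * (y ^ (k + 1))⁻¹ = y * (y ^ k * x * (y ^ k)⁻¹) * y⁻¹ := by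
        rw [pow_succ']; group
      rw [e1, map_mul, map_mul, ih, ← mul_assoc, ← hzyk, mul_assoc, mul_assoc,
        ← mul_assoc (D y), ← map_mul, ← map_mul, hyx, pow_succ, mul_assoc]
  have hwx : D x * w = w * D x := by
    rw [hw, mul_sub, sub_mul, hzx, mul_one, one_mul]
  have hsum : ∀ n : ℕ, (∑ k ∈ Finset.range n, D (y ^ k * x * (y ^ k)⁻¹)) * w =
      (D z ^ n - 1) * D x := by
    intro n
    rw [Finset.sum_mul]
    have e1 : ∀ k ∈ Finset.range n, D (y ^ k * x * (y ^ k)⁻¹) * w = D z ^ k * w * D x := by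
      intro k _
      rw [hconj, mul_assoc, hwx, ← mul_assoc]
    rw [Finset.sum_congr rfl e1, ← Finset.sum_mul, ← Finset.sum_mul, hw, geom_sum_mul]
  have hub : ∀ n : ℕ, ‖(D z ^ n - 1) * D x‖ ≤ (C + 1) * C := by
    intro n
    refine (norm_mul_le _ _).trans ?_
    gcongr
    · refine (norm_sub_le _ _).trans (add_le_add ?_ h1)
      rw [← map_pow]; exact hC _ (pow_mem hzN n)
    · exact hC x hx
  have hlb : ∀ n : ℕ, (n : ℝ) * ‖w‖ / 2 ≤
      ‖(∑ k ∈ Finset.range n, D (y ^ k * x * (y ^ k)⁻¹)) * w‖ := by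
    intro n
    have e1 : (∑ k ∈ Finset.range n, D (y ^ k * x * (y ^ k)⁻¹)) * w =
        (n : ℝ) • w + (∑ k ∈ Finset.range n, D (y ^ k) * (D x - 1) * D (y ^ k)⁻¹) * w := by
      have e2 : ∀ k ∈ Finset.range n, D (y ^ k * x * (y ^ k)⁻¹) =
          1 + D (y ^ k) * (D x - 1) * D (y ^ k)⁻¹ := by
        intro k _
        rw [map_mul, map_mul, mul_sub, sub_mul, mul_one, map_mul_inv]; abel
      rw [Finset.sum_congr rfl e2, Finset.sum_add_distrib, add_mul]
      congr 1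
      rw [Finset.sum_const, Finset.card_range, nsmul_eq_mul, mul_one, Nat.cast_smul_eq_nsmul,
        nsmul_eq_mul]
    have e3 : ‖(∑ k ∈ Finset.range n, D (y ^ k) * (D x - 1) * D (y ^ k)⁻¹) * w‖ ≤
        n * (1 / 2) * ‖w‖ := by
      refine (norm_mul_le _ _).trans ?_
      gcongr
      refine (norm_sum_le _ _).trans ?_
      have e4 : ∀ k ∈ Finset.range n, ‖D (y ^ k) * (D x - 1) * D (y ^ k)⁻¹‖ ≤ 1 / 2 := by
        intro k _
        refine (norm_mul_le _ _).trans ?_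
        have e5 : ‖D (y ^ k) * (D x - 1)‖ ≤ C * ε := by
          refine (norm_mul_le _ _).trans ?_
          gcongr
          exact hC _ (pow_mem hy k)
        have e6 : ‖D (y ^ k)⁻¹‖ ≤ C := hC _ (inv_mem (pow_mem hy k))
        have e7 : 0 ≤ C * ε := (norm_nonneg _).trans e5
        calc ‖D (y ^ k) * (D x - 1)‖ * ‖D (y ^ k)⁻¹‖ ≤ C * ε * C := by gcongr
          _ ≤ 1 / 2 := hε
      calc ∑ k ∈ Finset.range n, ‖D (y ^ k) * (D x - 1) * D (y ^ k)⁻¹‖
          ≤ ∑ _k ∈ Finset.range n, (1 / 2 : ℝ) := Finset.sum_le_sum e4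
        _ = n * (1 / 2) := by rw [Finset.sum_const, Finset.card_range, nsmul_eq_mul]
    rw [e1]
    have e8 : ‖(n : ℝ) • w‖ = n * ‖w‖ := by
      rw [norm_smul, Real.norm_natCast]
    have e9 := norm_sub_norm_le ((n : ℝ) • w)
      (-((∑ k ∈ Finset.range n, D (y ^ k) * (D x - 1) * D (y ^ k)⁻¹) * w))
    rw [norm_neg, sub_neg_eq_add, e8] at e9
    linarith
  by_contra hne
  have hw0 : 0 < ‖w‖ := by
    rw [norm_pos_iff, hw]; exact sub_ne_zero.2 hne
  obtain ⟨n, hn⟩ := exists_nat_gt ((C + 1) * C * 2 / ‖w‖)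
  have h5 := (hlb n).trans ((hsum n).symm ▸ hub n)
  rw [div_lt_iff₀ hw0] at hn
  linarith

theorem jordan (D : Γ →* A) (h1 : ‖(1 : A)‖ ≤ 1) {N : Subgroup Γ} {C ε : ℝ}
    (hC : ∀ γ ∈ N, ‖D γ‖ ≤ C) (hε : C * ε * C ≤ 1 / 2) (hC0 : 0 ≤ C) {S : Set Γ}
    (hS : ∀ x ∈ S, x ∈ N) (hSε : ∀ x ∈ S, ‖D x - 1‖ ≤ ε) (k : ℕ)
    (hk : ∀ z ∈ CS S k, D z = 1) : ∀ x ∈ S, ∀ y ∈ S, D x * D y = D y * D x := by
  have hcl : Subgroup.closure S ≤ N := (Subgroup.closure_le N).2 hS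
  -- commutation with the generators
  have hcomm : ∀ a b : Γ, D (a * b * a⁻¹ * b⁻¹) = 1 → D a * D b = D b * D a := by
    intro a b h
    have h2 : D (a * b) = D (b * a) := by
      have h3 : a * b = a * b * a⁻¹ * b⁻¹ * (b * a) := by group
      rw [h3, map_mul, h, one_mul]
    rwa [map_mul, map_mul] at h2
  have hcent : ∀ a : Γ, (∀ s ∈ S, D a * D s = D s * D a) → ∀ g ∈ Subgroup.closure S,
      D a * D g = D g * D a := by
    intro a ha g hg
    induction hg using Subgroup.closure_induction with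
    | mem x hx => exact ha x hx
    | one => rw [map_one, mul_one, one_mul]
    | mul x y _ _ hx hy => rw [map_mul, ← mul_assoc, hx, mul_assoc, hy, ← mul_assoc]
    | inv x _ hx =>
      calc D a * D x⁻¹ = (D x⁻¹ * D x) * D a * D x⁻¹ := by rw [map_inv_mul, one_mul]
        _ = D x⁻¹ * (D x * D a) * D x⁻¹ := by noncomm_ring
        _ = D x⁻¹ * (D a * D x) * D x⁻¹ := by rw [hx]
        _ = D x⁻¹ * D a * (D x * D x⁻¹) := by noncomm_ring
        _ = D x⁻¹ * D a := by rw [map_mul_inv, mul_one]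
  have hone : ∀ k : ℕ, (∀ z ∈ CS S (k + 1), D z = 1) → ∀ z ∈ CS S 1, D z = 1 := by
    intro k
    induction k with
    | zero => intro h; exact h
    | succ k ih =>
      intro h
      apply ih
      intro z hz
      obtain ⟨y, hy, x, hx, rfl⟩ := hz
      have hz' : y * x * y⁻¹ * x⁻¹ ∈ CS S (k + 1) := ⟨y, hy, x, hx, rfl⟩
      have h2 : ∀ s ∈ S, D (y * x * y⁻¹ * x⁻¹) * D s = D s * D (y * x * y⁻¹ * x⁻¹) := by
        intro s hs
        exact hcomm _ _ (h _ ⟨_, hz', s, hs, rfl⟩)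
      have h3 := hcent _ h2
      exact jordan_step D h1 hC hε hC0 (hS x hx) (hcl (CS_closure k hy)) (hSε x hx)
        (h2 x hx) (h3 y (CS_closure k hy))
  have h2 : ∀ z ∈ CS S (k + 1), D z = 1 := by
    rintro _ ⟨y, hy, x, hx, rfl⟩
    have h3 := hk y hy
    have h4 : D y⁻¹ = 1 := by
      have h5 := map_mul_inv D y
      rwa [h3, one_mul] at h5
    rw [map_mul, map_mul, map_mul, h3, h4, one_mul, mul_one, map_mul_inv]
  have h3 := hone k h2
  intro x hx y hy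
  exact hcomm x y (h3 _ ⟨x, hx, y, hy, rfl⟩)

/-- two elements of a discrete group whose conjugates tend to small elements of a bounded group -/
theorem zj (Φ D : Γ →* A) (h1 : ‖(1 : A)‖ ≤ 1) {η : ℝ} (hη : 0 < η)
    (hd : ∀ γ, ‖Φ γ - 1‖ < η → Φ γ = 1) (U V : ℝ → A) (h : ∀ t, U t * V t = 1)
    (h' : ∀ t, V t * U t = 1) (hD : ∀ γ, Tendsto (fun t => V t * Φ γ * U t) atTop (𝓝 (D γ)))
    {N : Subgroup Γ} {C ε : ℝ} (hC : ∀ γ ∈ N, ‖D γ‖ ≤ C) (hε : C * ε * C ≤ 1 / 2) (hC0 : 0 ≤ C)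
    (hε2 : ε ≤ 1 / 32) {g k : Γ} (hg : g ∈ N) (hk : k ∈ N) (hgε : ‖D g - 1‖ ≤ ε)
    (hkε : ‖D k - 1‖ ≤ ε) : D g * D k = D k * D g := by
  have e1 : ∀ γ, ‖D γ - 1‖ ≤ ε → ∀ᶠ t in atTop, ‖V t * Φ γ * U t - 1‖ ≤ 1 / 16 := by
    intro γ hγ
    have h2 := ((hD γ).sub_const 1).norm
    have h3 := h2.eventually_lt_const (show ‖D γ - 1‖ < 1 / 16 by linarith)
    filter_upwards [h3] with t ht using ht.le
  obtain ⟨t, ht1, ht2⟩ := ((e1 g hgε).and (e1 k hkε)).exists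
  obtain ⟨n, hn⟩ := CS_trivial Φ h1 hη hd (h t) (h' t) (S := {g, k}) (by
    rintro x (rfl | hx)
    · exact ht1
    · rw [mem_singleton_iff] at hx; rw [hx]; exact ht2)
  have hn' : ∀ z ∈ CS ({g, k} : Set Γ) n, D z = 1 := by
    intro z hz
    have h2 := hD z
    rw [hn z hz] at h2
    have h3 : (fun t => V t * 1 * U t) = fun _ : ℝ => (1 : A) := by
      funext t; rw [mul_one, h']
    rw [h3] at h2
    exact tendsto_nhds_unique h2 tendsto_const_nhds
  refine jordan D h1 hC hε hC0 (S := {g, k}) ?_ ?_ n hn' g (by simp) k (by simp)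
  · rintro x (rfl | hx)
    · exact hg
    · rw [mem_singleton_iff] at hx; rw [hx]; exact hk
  · rintro x (rfl | hx)
    · exact hgε
    · rw [mem_singleton_iff] at hx; rw [hx]; exact hkε

end jor

end Pool.Agent.E8helper77.Mk
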